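import Mathlib

/-!
Two forms of the marriage theorem for subsets of the square `Fin K × Fin K`.
-/

open Finset
open scoped Classical

namespace Pool.Agent.H97.PackE

variable {K : ℕ}

/-- the cells of the square -/
abbrev Cell (K : ℕ) := Fin K × Fin K

/-- a set of cells with at most one cell in each row and at most one in each column -/
def IsMat (A : Finset (Cell K)) : Prop :=
  (∀ x ∈ A, ∀ y ∈ A, x.1 = y.1 → x = y) ∧ ∀ x ∈ A, ∀ y ∈ A, x.2 = y.2 → x = y

lemma IsMat.mono {A B : Finset (Cell K)} (hA : IsMat A) (h : B ⊆ A) : IsMat B :=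
  ⟨fun x hx y hy => hA.1 x (h hx) y (h hy), fun x hx y hy => hA.2 x (h hx) y (h hy)⟩

lemma isMat_empty : IsMat (∅ : Finset (Cell K)) := by
  constructor <;> intro x hx <;> simp at hx

lemma IsMat.row_card {A : Finset (Cell K)} (hA : IsMat A) (i : Fin K) :
    (A.filter (fun x => x.1 = i)).card ≤ 1 := by
  rw [card_le_one]
  intro x hx y hy
  rw [mem_filter] at hx hy
  exact hA.1 x hx.1 y hy.1 (hx.2.trans hy.2.symm)

lemma IsMat.col_card {A : Finset (Cell K)} (hA : IsMat A) (i : Fin K) :
    (A.filter (fun x => x.2 = i)).card ≤ 1 := by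
  rw [card_le_one]
  intro x hx y hy
  rw [mem_filter] at hx hy
  exact hA.2 x hx.1 y hy.1 (hx.2.trans hy.2.symm)

/-- Hall's theorem for permutations inside a relation. -/
theorem exists_perm (A : Fin K → Fin K → Prop)
    (h : ∀ S T : Finset (Fin K), S.card + T.card = K + 1 → ∃ s ∈ S, ∃ t ∈ T, A s t) :
    ∃ σ : Equiv.Perm (Fin K), ∀ i, A i (σ i) := by
  have key : ∀ S : Finset (Fin K), S.card ≤ (univ.filter (fun b => ∃ a ∈ S, A a b)).card := by
    intro S
    by_contra hlt
    push Not at hlt
    set N := univ.filter (fun b => ∃ a ∈ S, A a b) with hN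
    have hc : Nᶜ.card = K - N.card := by rw [card_compl, Fintype.card_fin]
    have hNK : N.card ≤ K := by simpa using card_le_univ N
    have hSK : S.card ≤ K := by simpa using card_le_univ S
    obtain ⟨T, hT, hTc⟩ := exists_subset_card_eq (s := Nᶜ) (n := K + 1 - S.card) (by omega)
    obtain ⟨s, hs, t, ht, hA⟩ := h S T (by omega)
    have := hT ht
    rw [mem_compl, hN, mem_filter] at this
    exact this ⟨mem_univ _, s, hs, hA⟩
  obtain ⟨f, hf, hfA⟩ := (Fintype.all_card_le_filter_rel_iff_exists_injective A).1
    (fun S => by convert key S)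
  exact ⟨Equiv.ofBijective f (Finite.injective_iff_bijective.1 hf), hfA⟩

/-- Koenig's theorem for a block `S₀ × T₀` of excess `m`. -/
theorem exists_matching (E : Finset (Cell K)) (S0 T0 : Finset (Fin K)) (m : ℕ)
    (hm : S0.card + T0.card = K + m)
    (hE : ∀ S ⊆ S0, ∀ T ⊆ T0, K + 1 ≤ S.card + T.card → ∃ x ∈ E, x.1 ∈ S ∧ x.2 ∈ T) :
    ∃ M ⊆ E, IsMat M ∧ M.card = m := by
  have hS0K : S0.card ≤ K := by simpa using card_le_univ S0
  have hT0K : T0.card ≤ K := by simpa using card_le_univ T0
  have hmK : m ≤ K := by omega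
  -- the relation with dummy columns
  let r : Fin K → Fin K ⊕ Fin (K - m) → Prop := fun i z =>
    match z with
    | Sum.inl c => (i, c) ∈ E
    | Sum.inr _ => True
  have key : ∀ S : Finset (Fin K), S.card ≤ (univ.filter (fun b => ∃ a ∈ S, r a b)).card := by
    intro S
    rcases S.eq_empty_or_nonempty with rfl | ⟨s0, hs0⟩
    · simp
    set N : Finset (Fin K) := univ.filter (fun c => ∃ a ∈ S, (a, c) ∈ E) with hN
    have h1 : N.disjSum (univ : Finset (Fin (K - m))) ⊆
        univ.filter (fun b => ∃ a ∈ S, r a b) := by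
      intro z hz
      rw [mem_filter]
      refine ⟨mem_univ _, ?_⟩
      rcases z with c | j
      · rw [inl_mem_disjSum, hN, mem_filter] at hz
        exact hz.2
      · exact ⟨s0, hs0, trivial⟩
    have h2 := card_le_card h1
    rw [card_disjSum, card_univ, Fintype.card_fin] at h2
    refine le_trans ?_ h2
    by_contra hlt
    push Not at hlt
    have e1 : S.card ≤ (S ∩ S0).card + (K - S0.card) := by
      have f1 : S ⊆ (S ∩ S0) ∪ S0ᶜ := by
        intro x hx
        by_cases h : x ∈ S0 <;> simp [h, hx]
      have f2 := (card_le_card f1).trans (card_union_le _ _)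
      rwa [card_compl, Fintype.card_fin] at f2
    have e2 : T0.card ≤ (T0 \ N).card + N.card := by
      have f1 : T0 ⊆ (T0 \ N) ∪ N := by
        intro x hx
        by_cases h : x ∈ N <;> simp [h, hx]
      exact (card_le_card f1).trans (card_union_le _ _)
    obtain ⟨x, hx, hx1, hx2⟩ := hE (S ∩ S0) inter_subset_right (T0 \ N) sdiff_subset (by omega)
    rw [mem_sdiff] at hx2
    apply hx2.2
    rw [hN, mem_filter]
    exact ⟨mem_univ _, x.1, (mem_inter.1 hx1).1, hx⟩
  obtain ⟨f, hf, hfr⟩ := (Fintype.all_card_le_filter_rel_iff_exists_injective r).1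
    (fun S => by convert key S)
  set M0 : Finset (Cell K) := univ.filter (fun x => f x.1 = Sum.inl x.2) with hM0
  have hM0E : M0 ⊆ E := by
    intro x hx
    rw [hM0, mem_filter] at hx
    have := hfr x.1
    rw [hx.2] at this
    exact this
  have hM0m : IsMat M0 := by
    constructor
    · intro x hx y hy hxy
      rw [hM0, mem_filter] at hx hy
      have h1 := hx.2
      rw [hxy, hy.2] at h1
      exact Prod.ext hxy (Sum.inl_injective h1).symm
    · intro x hx y hy hxy
      rw [hM0, mem_filter] at hx hy
      have h1 := hx.2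
      rw [hxy, ← hy.2] at h1
      exact Prod.ext (hf h1) hxy
  have hM0c : m ≤ M0.card := by
    -- rows sent to dummy columns
    have h1 : (univ.filter (fun i : Fin K => (f i).isRight)).card ≤ K - m := by
      have h2 : (univ.filter (fun i : Fin K => (f i).isRight)).card ≤
          ((univ : Finset (Fin (K - m))).map Function.Embedding.inr :
            Finset (Fin K ⊕ Fin (K - m))).card := by
        refine card_le_card_of_injOn f ?_ (hf.injOn)
        intro i hi
        simp only [coe_filter, mem_univ, true_and, Set.mem_ofPred_eq] at hi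
        obtain ⟨j, hj⟩ := Sum.isRight_iff.1 hi
        rw [hj]
        simp
      simpa using h2
    have h3 : (univ.filter (fun i : Fin K => (f i).isLeft)).card ≤ M0.card := by
      refine card_le_card_of_surjOn (fun x => x.1) ?_
      intro i hi
      simp only [coe_filter, mem_univ, true_and, Set.mem_ofPred_eq] at hi
      obtain ⟨c, hc⟩ := Sum.isLeft_iff.1 hi
      exact ⟨(i, c), by simp [hM0, hc], rfl⟩
    have h4 : (univ.filter (fun i : Fin K => (f i).isLeft)).card +
        (univ.filter (fun i : Fin K => (f i).isRight)).card = K := by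
      have h5 := card_filter_add_card_filter_not (s := (univ : Finset (Fin K)))
        (fun i => (f i).isLeft = true)
      rw [card_univ, Fintype.card_fin] at h5
      refine Eq.trans ?_ h5
      congr 2
      ext i
      simp
    omega
  obtain ⟨M, hM, hMc⟩ := exists_subset_card_eq hM0c
  exact ⟨M, hM.trans hM0E, hM0m.mono hM, hMc⟩

end Pool.Agent.H97.PackE
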