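import Pool.Agent.H97.PackE.Viol

/-!
Conflicts along the edges of a graph.
-/

open Finset
open scoped Classical

namespace Pool.Agent.H97.PackE

variable {V : Type*} {G : SimpleGraph V} {K : ℕ}

/-- conflicts along the edges of a graph: a partial matching between two copies of `Fin K` for each
edge -/
structure Conf (G : SimpleGraph V) (K : ℕ) where
  R : V → V → Fin K → Fin K → Prop
  adj : ∀ {u v i j}, R u v i j → G.Adj u v
  symm : ∀ {u v i j}, R u v i j → R v u j i
  inj : ∀ {u v i j j'}, R u v i j → R u v i j' → j = j'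

lemma Conf.inj' (C : Conf G K) {u v : V} {i i' j : Fin K} (h : C.R u v i j) (h' : C.R u v i' j) :
    i = i' := C.inj (C.symm h) (C.symm h')

/-- the cells at `v` in conflict with the cells of `A` at `u` -/
noncomputable def tr (C : Conf G K) (A : Finset (Cell K)) (u v : V) : Finset (Cell K) :=
  univ.filter (fun x => ∃ c, (x.1, c) ∈ A ∧ C.R u v c x.2)

/-- the cells at `v` in conflict with the permutation `σ` at `u` -/
noncomputable def tp (C : Conf G K) (σ : Equiv.Perm (Fin K)) (u v : V) : Finset (Cell K) :=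
  univ.filter (fun x => C.R u v (σ x.1) x.2)

lemma mem_tr {C : Conf G K} {A : Finset (Cell K)} {u v : V} {x : Cell K} :
    x ∈ tr C A u v ↔ ∃ c, (x.1, c) ∈ A ∧ C.R u v c x.2 := by simp [tr]

lemma mem_tp {C : Conf G K} {σ : Equiv.Perm (Fin K)} {u v : V} {x : Cell K} :
    x ∈ tp C σ u v ↔ C.R u v (σ x.1) x.2 := by simp [tp]

lemma isMat_tp (C : Conf G K) (σ : Equiv.Perm (Fin K)) (u v : V) : IsMat (tp C σ u v) := by
  constructor
  · intro x hx y hy hxy
    rw [mem_tp] at hx hy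
    rw [hxy] at hx
    exact Prod.ext hxy (C.inj hx hy)
  · intro x hx y hy hxy
    rw [mem_tp] at hx hy
    rw [hxy] at hx
    exact Prod.ext (σ.injective (C.inj' hx hy)) hxy

lemma isMat_tr (C : Conf G K) {A : Finset (Cell K)} (hA : IsMat A) (u v : V) :
    IsMat (tr C A u v) := by
  constructor
  · intro x hx y hy hxy
    rw [mem_tr] at hx hy
    obtain ⟨c, hc, hcx⟩ := hx
    obtain ⟨c', hc', hcy⟩ := hy
    have h1 := hA.1 _ hc _ hc' hxy
    have h2 : c = c' := (Prod.ext_iff.1 h1).2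
    subst h2
    exact Prod.ext hxy (C.inj hcx hcy)
  · intro x hx y hy hxy
    rw [mem_tr] at hx hy
    obtain ⟨c, hc, hcx⟩ := hx
    obtain ⟨c', hc', hcy⟩ := hy
    rw [hxy] at hcx
    have h2 : c = c' := C.inj' hcx hcy
    subst h2
    have h1 := hA.2 _ hc _ hc' rfl
    exact Prod.ext (Prod.ext_iff.1 h1).1 hxy

lemma card_tr (C : Conf G K) (A : Finset (Cell K)) (u v : V) : (tr C A u v).card ≤ A.card := by
  let f : Cell K → Cell K := fun y => if h : ∃ c, C.R u v y.2 c then (y.1, h.choose) else y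
  refine card_le_card_of_surjOn f ?_
  intro x hx
  rw [mem_coe, mem_tr] at hx
  obtain ⟨c, hc, hcx⟩ := hx
  refine ⟨(x.1, c), hc, ?_⟩
  have h : ∃ c', C.R u v (x.1, c).2 c' := ⟨_, hcx⟩
  simp only [f, dif_pos h]
  exact Prod.ext rfl (C.inj h.choose_spec hcx)

/-- the family `σ` is a packing on `W` -/
def Good (C : Conf G K) (σ : V → Equiv.Perm (Fin K)) (W : Finset V) : Prop :=
  ∀ u ∈ W, ∀ v ∈ W, ∀ i, ¬ C.R u v (σ u i) (σ v i)

lemma row_cover (N : Finset V) (f : V → Finset (Cell K)) (hf : ∀ u ∈ N, IsMat (f u)) (s : Fin K)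
    (T : Finset (Fin K)) (hT : ∀ t ∈ T, ∃ u ∈ N, (s, t) ∈ f u) : T.card ≤ N.card := by
  have h1 : T ⊆ N.biUnion (fun u => univ.filter (fun t => (s, t) ∈ f u)) := by
    intro t ht
    obtain ⟨u, hu, h⟩ := hT t ht
    rw [mem_biUnion]
    exact ⟨u, hu, mem_filter.2 ⟨mem_univ _, h⟩⟩
  refine (card_le_card h1).trans ?_
  refine (card_biUnion_le_card_mul _ _ 1 fun u hu => ?_).trans (by rw [mul_one])
  rw [card_le_one]
  intro x hx y hy
  rw [mem_filter] at hx hy
  exact (Prod.ext_iff.1 ((hf u hu).1 _ hx.2 _ hy.2 rfl)).2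

lemma col_cover (N : Finset V) (f : V → Finset (Cell K)) (hf : ∀ u ∈ N, IsMat (f u)) (t : Fin K)
    (S : Finset (Fin K)) (hS : ∀ s ∈ S, ∃ u ∈ N, (s, t) ∈ f u) : S.card ≤ N.card := by
  have h1 : S ⊆ N.biUnion (fun u => univ.filter (fun s => (s, t) ∈ f u)) := by
    intro s hs
    obtain ⟨u, hu, h⟩ := hS s hs
    rw [mem_biUnion]
    exact ⟨u, hu, mem_filter.2 ⟨mem_univ _, h⟩⟩
  refine (card_le_card h1).trans ?_
  refine (card_biUnion_le_card_mul _ _ 1 fun u hu => ?_).trans (by rw [mul_one])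
  rw [card_le_one]
  intro x hx y hy
  rw [mem_filter] at hx hy
  exact (Prod.ext_iff.1 ((hf u hu).2 _ hx.2 _ hy.2 rfl)).1

lemma IsMat.rect_card {A : Finset (Cell K)} (hA : IsMat A) (S T : Finset (Fin K)) :
    (A.filter (fun x => x.1 ∈ S ∧ x.2 ∈ T)).card ≤ min S.card T.card := by
  rw [le_min_iff]
  constructor
  · refine card_le_card_of_injOn (fun x => x.1) ?_ ?_
    · intro x hx
      exact (mem_filter.1 hx).2.1
    · intro x hx y hy hxy
      exact hA.1 x (mem_filter.1 hx).1 y (mem_filter.1 hy).1 hxy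
  · refine card_le_card_of_injOn (fun x => x.2) ?_ ?_
    · intro x hx
      exact (mem_filter.1 hx).2.2
    · intro x hx y hy hxy
      exact hA.2 x (mem_filter.1 hx).1 y (mem_filter.1 hy).1 hxy

lemma rect_cover (N N' : Finset V) (f : V → Finset (Cell K)) (hf : ∀ u ∈ N, IsMat (f u))
    (q : V → ℕ) (hf' : ∀ u ∈ N', (f u).card ≤ q u) (S T : Finset (Fin K))
    (h : ∀ s ∈ S, ∀ t ∈ T, ∃ u ∈ N ∪ N', (s, t) ∈ f u) :
    S.card * T.card ≤ N.card * min S.card T.card + ∑ u ∈ N', q u := by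
  rw [← card_product]
  have h1 : S ×ˢ T ⊆ N.biUnion (fun u => (f u).filter (fun x => x.1 ∈ S ∧ x.2 ∈ T)) ∪
      N'.biUnion f := by
    rintro ⟨s, t⟩ hx
    rw [mem_product] at hx
    obtain ⟨u, hu, hst⟩ := h s hx.1 t hx.2
    rw [mem_union] at hu
    rw [mem_union, mem_biUnion, mem_biUnion]
    rcases hu with hu | hu
    · left
      exact ⟨u, hu, mem_filter.2 ⟨hst, hx⟩⟩
    · right
      exact ⟨u, hu, hst⟩
  refine (card_le_card h1).trans ((card_union_le _ _).trans (add_le_add ?_ ?_))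
  · exact card_biUnion_le_card_mul _ _ _ fun u hu => (hf u hu).rect_card S T
  · exact card_biUnion_le.trans (sum_le_sum hf')

/-- allowed cells at `v` with respect to the outside colours -/
def Bo (C : Conf G K) (σ : V → Equiv.Perm (Fin K)) (W : Finset V) (v : V) :
    Fin K → Fin K → Prop := fun s t => ∀ u ∈ W, ¬ C.R u v (σ u s) t

lemma Bo_obd (C : Conf G K) (σ : V → Equiv.Perm (Fin K)) (W : Finset V) (v : V) :
    Obd (Bo C σ W v) (W.filter (fun u => G.Adj v u)).card := by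
  constructor
  · intro s
    refine row_cover _ (fun u => tp C (σ u) u v) (fun u _ => isMat_tp _ _ _ _) s _ ?_
    intro t ht
    rw [mem_filter, Bo] at ht
    obtain ⟨_, ht⟩ := ht
    push Not at ht
    obtain ⟨u, hu, h⟩ := ht
    exact ⟨u, mem_filter.2 ⟨hu, (C.adj h).symm⟩, mem_tp.2 h⟩
  · intro t
    refine col_cover _ (fun u => tp C (σ u) u v) (fun u _ => isMat_tp _ _ _ _) t _ ?_
    intro s hs
    rw [mem_filter, Bo] at hs
    obtain ⟨_, hs⟩ := hs
    push Not at hs
    obtain ⟨u, hu, h⟩ := hs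
    exact ⟨u, mem_filter.2 ⟨hu, (C.adj h).symm⟩, mem_tp.2 h⟩

/-- the number of neighbours of `v` in `Y` -/
noncomputable def nb (G : SimpleGraph V) (Y : Finset V) (v : V) : ℕ :=
  (Y.filter (fun u => G.Adj v u)).card

lemma nb_split {U Y : Finset V} (h : Y ⊆ U) (v : V) : nb G U v = nb G (U \ Y) v + nb G Y v := by
  unfold nb
  rw [← card_union_of_disjoint (disjoint_filter_filter sdiff_disjoint), ← filter_union,
    sdiff_union_of_subset h]

lemma nb_mono {U Y : Finset V} (h : Y ⊆ U) (v : V) : nb G Y v ≤ nb G U v :=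
  card_le_card (filter_subset_filter _ h)

lemma nb_erase_self (Y : Finset V) (v : V) : nb G (Y.erase v) v = nb G Y v := by
  unfold nb
  congr 1
  ext u
  simp only [mem_filter, mem_erase]
  constructor
  · rintro ⟨⟨_, h1⟩, h2⟩
    exact ⟨h1, h2⟩
  · rintro ⟨h1, h2⟩
    exact ⟨⟨h2.ne', h1⟩, h2⟩

lemma sum_nb_comm (A B : Finset V) : ∑ v ∈ A, nb G B v = ∑ v ∈ B, nb G A v := by
  have := sum_card_bipartiteAbove_eq_sum_card_bipartiteBelow (s := A) (t := B)
    (fun u v => G.Adj u v)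
  unfold nb
  simp only [bipartiteAbove, bipartiteBelow] at this
  rw [this]
  refine sum_congr rfl fun v _ => ?_
  congr 1
  ext u
  simp only [mem_filter, G.adj_comm]

lemma sum_nb_erase {Y : Finset V} {v : V} (hv : v ∈ Y) :
    ∑ u ∈ Y, nb G Y u = ∑ u ∈ Y.erase v, nb G (Y.erase v) u + 2 * nb G Y v := by
  rw [← add_sum_erase _ _ hv]
  have h1 : ∀ u ∈ Y.erase v, nb G Y u = nb G (Y \ Y.erase v) u + nb G (Y.erase v) u :=
    fun u _ => nb_split (erase_subset v Y) u
  rw [sum_congr rfl h1, sum_add_distrib, sum_nb_comm (Y.erase v) (Y \ Y.erase v)]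
  have h2 : Y \ Y.erase v = {v} := by
    ext u
    simp only [mem_sdiff, mem_erase, mem_singleton]
    constructor
    · rintro ⟨h1, h2⟩
      by_contra h3
      exact h2 ⟨h3, h1⟩
    · rintro rfl
      exact ⟨hv, by simp⟩
  rw [h2, sum_singleton, nb_erase_self]
  ring

end Pool.Agent.H97.PackE
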