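import Pool.Agent.H97.PackE.Extend

/-!
Sparse graphs contain valid sets; packings of covers of sparse graphs.
-/

open Finset
open scoped Classical

namespace Pool.Agent.H97.PackE

variable {V : Type*} {G : SimpleGraph V} {K : ℕ}

/-- the weight of a vertex of high degree -/
def gw (K k D : ℕ) (d : ℕ) : ℕ :=
  if d + (4 * D - 1) ≤ K then (K - k) * (d - (k + 1)) else (K - k) * d

lemma sum_mu_single (k : ℕ) (U Y : Finset V) (v : V) :
    ∑ u ∈ Y, mu G k U u * nb G {v} u = ∑ u ∈ Y.filter (fun u => G.Adj v u), mu G k U u := by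
  rw [sum_filter]
  refine sum_congr rfl fun u _ => ?_
  by_cases h : G.Adj v u
  · have : nb G {v} u = 1 := by
      unfold nb
      rw [card_eq_one]
      refine ⟨v, ?_⟩
      ext w
      simp only [mem_filter, mem_singleton]
      constructor
      · rintro ⟨h1, _⟩; exact h1
      · rintro rfl; exact ⟨rfl, h.symm⟩
    rw [this, if_pos h, mul_one]
  · have : nb G {v} u = 0 := by
      unfold nb
      rw [card_eq_zero, filter_eq_empty_iff]
      intro w hw huw
      rw [mem_singleton] at hw
      subst hw
      exact h huw.symm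
    rw [this, if_neg h, mul_zero]

/-- the number of edges between low vertices and between low and high vertices, weighted -/
theorem peel {k D : ℕ} {U : Finset V} (hno : ∀ X ⊆ U, X.Nonempty → ¬ Valid G K k D U X)
    (hmin : ∀ v ∈ U, k + 1 ≤ nb G U v) (X : Finset V) (hXU : X ⊆ U) :
    (K - k) * ∑ v ∈ X.filter (fun v => nb G U v ≤ k + D), nb G X v +
      (K - k) * ∑ _v ∈ X.filter (fun v => nb G U v ≤ k + D), (4 * k + 4) ≤
    (K - k) * ∑ v ∈ X.filter (fun v => nb G U v ≤ k + D), 4 * nb G U v +
      ∑ v ∈ X.filter (fun v => ¬ nb G U v ≤ k + D), gw K k D (nb G U v) +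
      ∑ v ∈ X.filter (fun v => nb G U v ≤ k + D),
        mu G k U v * nb G (X.filter (fun v => ¬ nb G U v ≤ k + D)) v := by
  induction X using Finset.strongInduction with
  | H X ih =>
    rcases X.eq_empty_or_nonempty with rfl | hne
    · simp
    · set q := K - k with hq
      have hnv := hno X hXU hne
      have hex : ∃ v ∈ X, (nb G U v ≤ k + D ∧ 2 * k + 2 ≤ nb G (U \ X) v + nb G U v) ∨
          (k + D < nb G U v ∧ q * nb G (X.filter (fun v => nb G U v ≤ k + D)) v ≤
            gw K k D (nb G U v) + ∑ u ∈ (X.filter (fun v => nb G U v ≤ k + D)).filter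
              (fun u => G.Adj v u), mu G k U u) := by
        by_contra hcon
        push Not at hcon
        apply hnv
        refine ⟨hXU, fun v hv => hmin v (hXU hv), fun v hv h => ?_, fun v hv h => ?_⟩
        · have := (hcon v hv).1 h
          omega
        have h1 := (hcon v hv).2 h
        have h2 : nb G (X.filter (fun v => nb G U v ≤ k + D)) v ≤ nb G U v :=
          nb_mono ((filter_subset _ _).trans hXU) v
        unfold gw at h1
        split_ifs at h1 with h3
        · exact ⟨h3, h1⟩
        · exfalso
          have h4 := Nat.mul_le_mul_left q h2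
          rw [← hq] at h1
          omega
      obtain ⟨v, hv, hcase⟩ := hex
      have hih := ih (X.erase v) (erase_ssubset hv) ((erase_subset v X).trans hXU)
      -- neighbours in X and in X minus v
      have hone : ∀ u ∈ X.erase v, nb G X u = nb G (X.erase v) u + nb G {v} u := by
        intro u _
        have h1 := nb_split (G := G) (erase_subset v X) u
        have h2 : X \ X.erase v = {v} := by
          ext w
          simp only [mem_sdiff, mem_erase, mem_singleton]
          constructor
          · rintro ⟨h1, h2⟩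
            by_contra h3
            exact h2 ⟨h3, h1⟩
          · rintro rfl
            exact ⟨hv, by simp⟩
        rw [h1, h2, add_comm]
      have hsum : ∀ Y : Finset V, Y ⊆ X.erase v →
          ∑ u ∈ Y, nb G X u = ∑ u ∈ Y, nb G (X.erase v) u + nb G Y v := by
        intro Y hY
        rw [sum_congr rfl fun u hu => hone u (hY hu), sum_add_distrib, sum_nb_comm Y {v},
          sum_singleton]
      rcases hcase with ⟨hL, hk⟩ | ⟨hR, hg⟩
      · -- low vertex
        have e1 : X.filter (fun v => nb G U v ≤ k + D) =
            insert v ((X.erase v).filter (fun v => nb G U v ≤ k + D)) := by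
          rw [← insert_erase hv, filter_insert, if_pos hL, erase_insert (notMem_erase v X)]
        have e2 : X.filter (fun v => ¬ nb G U v ≤ k + D) =
            (X.erase v).filter (fun v => ¬ nb G U v ≤ k + D) := by
          ext u
          simp only [mem_filter, mem_erase]
          constructor
          · rintro ⟨h1, h2⟩
            exact ⟨⟨fun e => h2 (e ▸ hL), h1⟩, h2⟩
          · rintro ⟨⟨_, h1⟩, h2⟩
            exact ⟨h1, h2⟩
        have hnot : v ∉ (X.erase v).filter (fun v => nb G U v ≤ k + D) := by simp
        rw [e1, e2, sum_insert hnot, sum_insert hnot, sum_insert hnot, sum_insert hnot]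
        rw [hsum _ (filter_subset _ _)]
        have h1 : nb G ((X.erase v).filter (fun v => nb G U v ≤ k + D)) v ≤ nb G X v :=
          nb_mono ((filter_subset _ _).trans (erase_subset v X)) v
        have h2 := nb_split (G := G) hXU v
        have h3 : nb G X v + nb G ((X.erase v).filter (fun v => nb G U v ≤ k + D)) v +
            (4 * k + 4) ≤ 4 * nb G U v := by omega
        have h4 := Nat.mul_le_mul_left q h3
        simp only [mul_add] at h4 hih ⊢
        omega
      · -- high vertex
        have hR' : ¬ nb G U v ≤ k + D := by omega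
        have e1 : X.filter (fun v => ¬ nb G U v ≤ k + D) =
            insert v ((X.erase v).filter (fun v => ¬ nb G U v ≤ k + D)) := by
          rw [← insert_erase hv, filter_insert, if_pos hR', erase_insert (notMem_erase v X)]
        have e2 : X.filter (fun v => nb G U v ≤ k + D) =
            (X.erase v).filter (fun v => nb G U v ≤ k + D) := by
          ext u
          simp only [mem_filter, mem_erase]
          constructor
          · rintro ⟨h1, h2⟩
            exact ⟨⟨fun e => hR' (e ▸ h2), h1⟩, h2⟩
          · rintro ⟨⟨_, h1⟩, h2⟩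
            exact ⟨h1, h2⟩
        have hnot : v ∉ (X.erase v).filter (fun v => ¬ nb G U v ≤ k + D) := by simp
        rw [e2] at hg
        have h5 : ∀ u, nb G (insert v ((X.erase v).filter (fun v => ¬ nb G U v ≤ k + D))) u =
            nb G ((X.erase v).filter (fun v => ¬ nb G U v ≤ k + D)) u + nb G {v} u := by
          intro u
          have h6 := nb_split (G := G)
            (subset_insert v ((X.erase v).filter (fun v => ¬ nb G U v ≤ k + D))) u
          rw [h6, insert_sdiff_of_notMem _ hnot, sdiff_self]
          rw [add_comm]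
          rfl
        have h7 : ∑ u ∈ (X.erase v).filter (fun v => nb G U v ≤ k + D), mu G k U u *
            nb G (insert v ((X.erase v).filter (fun v => ¬ nb G U v ≤ k + D))) u =
            ∑ u ∈ (X.erase v).filter (fun v => nb G U v ≤ k + D), mu G k U u *
              nb G ((X.erase v).filter (fun v => ¬ nb G U v ≤ k + D)) u +
            ∑ u ∈ ((X.erase v).filter (fun v => nb G U v ≤ k + D)).filter (fun u => G.Adj v u),
              mu G k U u := by
          rw [← sum_mu_single, ← sum_add_distrib]
          refine sum_congr rfl fun u _ => ?_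
          rw [h5, mul_add]
        rw [e1, e2, sum_insert hnot, hsum _ (filter_subset _ _), h7]
        simp only [mul_add] at hih ⊢
        omega

/-- a graph without valid sets has large average degree -/
theorem average_le {k D : ℕ} (hn : NumG K k D) (hK : K ≤ 16 * D + 10) {U : Finset V}
    (hno : ∀ X ⊆ U, X.Nonempty → ¬ Valid G K k D U X)
    (hmin : ∀ v ∈ U, k + 1 ≤ nb G U v) :
    5 * K * U.card ≤ 9 * ∑ v ∈ U, nb G U v := by
  have hp := peel hno hmin U subset_rfl
  have hD1 := hn.hD1
  have hk := hn.hk
  have hk' := hn.hk'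
  have h16 := hn.h16
  obtain ⟨q, hq⟩ : ∃ q, K = k + q := ⟨K - k, by omega⟩
  have hqk : K - k = q := by omega
  have hq0 : 0 < q := by omega
  rw [hqk] at hp
  set L := U.filter (fun v => nb G U v ≤ k + D) with hL
  set R := U.filter (fun v => ¬ nb G U v ≤ k + D) with hR
  have hsum : ∑ v ∈ U, nb G U v = ∑ v ∈ L, nb G U v + ∑ v ∈ R, nb G U v :=
    (sum_filter_add_sum_filter_not _ _ _).symm
  have hcard : U.card = L.card + R.card := (card_filter_add_card_filter_not _).symm
  have hmuR : ∑ v ∈ L, mu G k U v * nb G R v ≤ ∑ v ∈ L, mu G k U v * nb G U v :=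
    sum_le_sum fun v _ => Nat.mul_le_mul_left _ (nb_mono (filter_subset _ _) v)
  -- integer form
  have hp' : ∑ v ∈ L, ((q : ℤ) * (4 * k + 4) - 3 * q * nb G U v - mu G k U v * nb G U v) ≤
      ∑ v ∈ R, (gw K k D (nb G U v) : ℤ) := by
    have h5 : q * ∑ v ∈ L, nb G U v + q * ∑ _v ∈ L, (4 * k + 4) ≤
        q * ∑ v ∈ L, 4 * nb G U v + ∑ v ∈ R, gw K k D (nb G U v) +
          ∑ v ∈ L, mu G k U v * nb G U v := by
      have : ∑ v ∈ L, mu G k U v * nb G R v ≤ ∑ v ∈ L, mu G k U v * nb G U v := hmuR
      omega
    zify at h5
    rw [Finset.sum_sub_distrib, Finset.sum_sub_distrib, ← Finset.mul_sum, ← Finset.mul_sum]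
    rw [← Finset.mul_sum] at h5
    linarith
  -- low vertices
  have hlow : ∀ v ∈ L, (0 : ℤ) ≤ 9 * q * nb G U v - 5 * K * q +
      (q * (4 * k + 4) - 3 * q * nb G U v - mu G k U v * nb G U v) := by
    intro v hv
    have h6 := hmin v (mem_filter.1 hv).1
    have h7 := (mem_filter.1 hv).2
    obtain ⟨i, hi⟩ : ∃ i, nb G U v = k + 1 + i := ⟨nb G U v - (k + 1), by omega⟩
    have hmu : mu G k U v = 4 * i + 3 := by unfold mu; omega
    rw [hmu, hi]
    have hiD : i + 1 ≤ D := by omega
    have h8 : 8 * (i + 1) ≤ k + 3 := by omega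
    push_cast
    rcases (show q = k ∨ q = k + 1 by omega) with h9 | h9
    · have hKz : (K : ℤ) = 2 * k := by omega
      have hqz : (q : ℤ) = k := by omega
      rw [hKz, hqz]
      have h10 : (8 : ℤ) * (i + 1) ≤ k + 3 := by exact_mod_cast h8
      have h11 : (1 : ℤ) ≤ k := by omega
      have h12 : (0 : ℤ) ≤ i := by positivity
      nlinarith
    · have hKz : (K : ℤ) = 2 * k + 1 := by omega
      have hqz : (q : ℤ) = k + 1 := by omega
      rw [hKz, hqz]
      have h10 : (8 : ℤ) * (i + 1) ≤ k + 3 := by exact_mod_cast h8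
      have h12 : (0 : ℤ) ≤ i := by positivity
      nlinarith
  -- high vertices
  have hhigh : ∀ v ∈ R, (gw K k D (nb G U v) : ℤ) ≤ 9 * q * nb G U v - 5 * K * q := by
    intro v hv
    have h6 : k + D + 1 ≤ nb G U v := by
      have := (mem_filter.1 hv).2
      omega
    unfold gw
    split_ifs with h7
    · rw [hqk]
      obtain ⟨δ, hδ⟩ : ∃ δ, nb G U v = k + 1 + δ := ⟨nb G U v - (k + 1), by omega⟩
      rw [hδ, Nat.add_sub_cancel_left]
      have h8 : 5 * K + δ ≤ 9 * (k + 1 + δ) := by omega
      have h9 := Nat.mul_le_mul_left q h8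
      zify at h9
      push_cast
      linarith
    · rw [hqk]
      have h8 : 5 * K + nb G U v ≤ 9 * nb G U v := by omega
      have h9 := Nat.mul_le_mul_left q h8
      zify at h9
      push_cast
      linarith
  have hLs := Finset.sum_nonneg hlow
  have hRs := Finset.sum_le_sum hhigh
  rw [hsum, hcard]
  rw [Finset.sum_add_distrib, Finset.sum_sub_distrib, ← Finset.mul_sum, Finset.sum_const,
    nsmul_eq_mul] at hLs
  rw [Finset.sum_sub_distrib, ← Finset.mul_sum, Finset.sum_const, nsmul_eq_mul] at hRs
  have h12 : (q : ℤ) * (5 * K * (L.card + R.card)) ≤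
      q * (9 * (∑ v ∈ L, (nb G U v : ℤ) + ∑ v ∈ R, (nb G U v : ℤ))) := by
    linarith
  have h13 := le_of_mul_le_mul_left h12 (by exact_mod_cast hq0)
  zify
  exact h13

/-- packings of covers of sparse graphs -/
theorem exists_packing (C : Conf G K) (_hK1 : 1 ≤ K) (U : Finset V)
    (hmad : ∀ Y ⊆ U, Y.Nonempty → 9 * ∑ v ∈ Y, nb G Y v < 5 * K * Y.card) :
    ∃ σ, Good C σ U := by
  induction U using Finset.strongInduction with
  | H U ih =>
    rcases U.eq_empty_or_nonempty with rfl | hne
    · exact ⟨fun _ => 1, fun u hu => by simp at hu⟩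
    · obtain ⟨k, hk1, hk2⟩ : ∃ k, 2 * k ≤ K ∧ K ≤ 2 * k + 1 := ⟨K / 2, by omega, by omega⟩
      by_cases hmin : ∀ v ∈ U, k + 1 ≤ nb G U v
      · have hU := hmad U subset_rfl hne
        rcases Nat.eq_zero_or_pos ((K + 5) / 16) with hD | hD
        · exfalso
          have h1 := card_nsmul_le_sum U (fun v => nb G U v) (k + 1) hmin
          rw [smul_eq_mul] at h1
          have h2 : 5 * K * U.card ≤ 9 * (k + 1) * U.card :=
            Nat.mul_le_mul_right _ (by omega)
          have h3 : 9 * (k + 1) * U.card = 9 * (U.card * (k + 1)) := by ring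
          omega
        · have hn : NumG K k ((K + 5) / 16) := ⟨hk1, hk2, hD, by omega⟩
          by_cases hno : ∀ X ⊆ U, X.Nonempty → ¬ Valid G K k ((K + 5) / 16) U X
          · have := average_le hn (by omega) hno hmin
            omega
          · push Not at hno
            obtain ⟨X, hXU, hXne, hX⟩ := hno
            obtain ⟨σ0, h0⟩ := ih (U \ X) (sdiff_ssubset hXU hXne)
              (fun Y hY => hmad Y (hY.trans sdiff_subset))
            exact extend_valid C hn hX σ0 h0
      · push Not at hmin
        obtain ⟨v, hv, hvk⟩ := hmin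
        obtain ⟨σ0, h0⟩ := ih (U.erase v) (erase_ssubset hv)
          (fun Y hY => hmad Y (hY.trans (erase_subset v U)))
        exact extend_one C hk1 U v hv (by omega) σ0 h0

end Pool.Agent.H97.PackE
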