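import Pool.Agent.H97.PackE.Conf

/-!
Sequential colouring with reserved matchings that are chosen when a vertex becomes critical.
-/

open Finset
open scoped Classical

namespace Pool.Agent.H97.PackE

variable {V : Type*} {G : SimpleGraph V} {K : ℕ}

/-- the state of the sequential colouring: `W` is the set of coloured vertices, `A` the set of active
vertices -/
structure St (C : Conf G K) (μ : V → ℕ) (U X W A : Finset V) (σ : V → Equiv.Perm (Fin K))
    (Res : V → Finset (Cell K)) : Prop where
  good : Good C σ W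
  act : ∀ v ∈ A, v ∈ X ∧ v ∉ W
  mat : ∀ v ∈ A, IsMat (Res v) ∧ (Res v).card ≤ μ v
  avoid : ∀ v ∈ A, ∀ u ∈ W, ∀ i c, (i, c) ∈ Res v → ¬ C.R u v (σ u i) c
  disj : ∀ u ∈ A, ∀ v ∈ A, ∀ i c c', (i, c) ∈ Res u → (i, c') ∈ Res v → ¬ C.R u v c c'
  hit : ∀ v ∈ A, ∀ S T, Viol (Bo C σ W v) (nb G (U \ W) v) S T → ∃ x ∈ Res v, x.1 ∈ S ∧ x.2 ∈ T

/-- the numerical conditions for the activation of `z` -/
structure Act (G : SimpleGraph V) (K k : ℕ) (μ : V → ℕ) (U W : Finset V) (z : V) : Prop where
  hk : 2 * k ≤ K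
  ho : nb G W z ≤ k
  hn : Num K (nb G W z) (nb G (U \ W) z)
  hμ : 2 * nb G (U \ W) z + 1 ≤ μ z

/-- activating one vertex -/
theorem St.activate {C : Conf G K} {k mx : ℕ} {μ : V → ℕ} {U X W A : Finset V}
    {σ : V → Equiv.Perm (Fin K)}
    {Res : V → Finset (Cell K)} (h : St C μ U X W A σ Res) (hXU : X ⊆ U) {z : V}
    (hzX : z ∈ X) (hzW : z ∉ W) (hzA : z ∉ A) (hz : Act G K k μ U W z)
    (hmx : ∀ u ∈ A, μ u ≤ mx) (hc : nb G (U \ W) z * mx < (K - k) * (k + 1 - nb G W z)) :
    ∃ Res', St C μ U X W (insert z A) σ Res' := by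
  set F := (A.filter (fun u => G.Adj z u)).biUnion (fun u => tr C (Res u) u z) with hF
  have hAU : A ⊆ U \ W := fun v hv => mem_sdiff.2 ⟨hXU (h.act v hv).1, (h.act v hv).2⟩
  have hFc : F.card ≤ nb G (U \ W) z * mx := by
    have h1 : F.card ≤ (A.filter (fun u => G.Adj z u)).card * mx := by
      refine card_biUnion_le_card_mul _ _ _ fun u hu => ?_
      rw [mem_filter] at hu
      exact ((card_tr C _ _ _).trans (h.mat u hu.1).2).trans (hmx u hu.1)
    refine h1.trans (Nat.mul_le_mul_right _ ?_)
    exact nb_mono hAU z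
  obtain ⟨M, hMm, hMc, hMB, hMh⟩ := exists_hitting hz.hk hz.ho (Bo_obd C σ W z) hz.hn F
    (hFc.trans_lt hc)
  have hne : ∀ u ∈ A, u ≠ z := fun u hu e => hzA (e ▸ hu)
  have hMR : ∀ u ∈ A, ∀ i c c', (i, c) ∈ Res u → (i, c') ∈ M → ¬ C.R u z c c' := by
    intro u hu i c c' hc hc' hR
    apply (hMB _ hc').2
    rw [hF, mem_biUnion]
    exact ⟨u, mem_filter.2 ⟨hu, (C.adj hR).symm⟩, mem_tr.2 ⟨c, hc, hR⟩⟩
  refine ⟨Function.update Res z M, h.good, ?_, ?_, ?_, ?_, ?_⟩
  · intro v hv
    rw [mem_insert] at hv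
    rcases hv with rfl | hv
    · exact ⟨hzX, hzW⟩
    · exact h.act v hv
  · intro v hv
    rw [mem_insert] at hv
    rcases hv with rfl | hv
    · rw [Function.update_self]
      exact ⟨hMm, hMc.trans hz.hμ⟩
    · rw [Function.update_of_ne (hne v hv)]
      exact h.mat v hv
  · intro v hv u hu i c hc
    rw [mem_insert] at hv
    rcases hv with rfl | hv
    · rw [Function.update_self] at hc
      exact (hMB _ hc).1 u hu
    · rw [Function.update_of_ne (hne v hv)] at hc
      exact h.avoid v hv u hu i c hc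
  · intro u hu v hv i c c' hc hc'
    rw [mem_insert] at hu hv
    rcases hu with rfl | hu <;> rcases hv with rfl | hv
    · intro hR
      exact (C.adj hR).ne rfl
    · rw [Function.update_self] at hc
      rw [Function.update_of_ne (hne v hv)] at hc'
      intro hR
      exact hMR v hv i c' c hc' hc (C.symm hR)
    · rw [Function.update_self] at hc'
      rw [Function.update_of_ne (hne u hu)] at hc
      exact hMR u hu i c c' hc hc'
    · rw [Function.update_of_ne (hne u hu)] at hc
      rw [Function.update_of_ne (hne v hv)] at hc'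
      exact h.disj u hu v hv i c c' hc hc'
  · intro v hv S T hV
    rw [mem_insert] at hv
    rcases hv with rfl | hv
    · rw [Function.update_self]
      exact hMh S T hV
    · rw [Function.update_of_ne (hne v hv)]
      exact h.hit v hv S T hV

/-- activating several vertices -/
theorem St.activate_all {C : Conf G K} {k mx : ℕ} {μ : V → ℕ} {U X W A : Finset V}
    {σ : V → Equiv.Perm (Fin K)} {Res : V → Finset (Cell K)} (h : St C μ U X W A σ Res)
    (hXU : X ⊆ U) (Z : Finset V) (hZX : ∀ z ∈ Z, z ∈ X ∧ z ∉ W)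
    (hmx : ∀ u ∈ Z ∪ A, μ u ≤ mx)
    (hn : ∀ z ∈ Z, z ∉ A → Act G K k μ U W z ∧
      nb G (U \ W) z * mx < (K - k) * (k + 1 - nb G W z)) :
    ∃ Res', St C μ U X W (Z ∪ A) σ Res' := by
  induction Z using Finset.induction_on with
  | empty => exact ⟨Res, by rwa [empty_union]⟩
  | insert z Z hz ih =>
    obtain ⟨Res1, h1⟩ := ih (fun y hy => hZX y (mem_insert_of_mem hy))
      (fun y hy => hmx y (by rw [insert_union]; exact mem_insert_of_mem hy))
      (fun y hy => hn y (mem_insert_of_mem hy))
    rw [insert_union]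
    by_cases hzA : z ∈ A
    · rw [insert_eq_of_mem (mem_union_right _ hzA)]
      exact ⟨Res1, h1⟩
    · have h2 := hZX z (mem_insert_self z Z)
      have h3 := hn z (mem_insert_self z Z) hzA
      refine h1.activate hXU h2.1 h2.2 ?_ h3.1
        (fun y hy => hmx y (by rw [insert_union]; exact mem_insert_of_mem hy)) h3.2
      rw [mem_union]
      rintro (h3 | h3)
      · exact hz h3
      · exact hzA h3

/-- colouring one vertex -/
theorem St.colour {C : Conf G K} {μ : V → ℕ} {U X W A : Finset V}
    {σ : V → Equiv.Perm (Fin K)} {Res : V → Finset (Cell K)} (h : St C μ U X W A σ Res)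
    (hXU : X ⊆ U) {v : V} (hvX : v ∈ X) (hvW : v ∉ W)
    (hall : ∀ S T : Finset (Fin K), S.card + T.card = K + 1 → ∃ s ∈ S, ∃ t ∈ T,
      (∀ u ∈ W, ¬ C.R u v (σ u s) t) ∧ ∀ u ∈ A.erase v, ∀ c, (s, c) ∈ Res u → ¬ C.R u v c t) :
    ∃ σ', St C μ U X (insert v W) (A.erase v) σ' Res := by
  obtain ⟨τ, hτ⟩ := exists_perm (fun s t => (∀ u ∈ W, ¬ C.R u v (σ u s) t) ∧
      ∀ u ∈ A.erase v, ∀ c, (s, c) ∈ Res u → ¬ C.R u v c t) hall
  have hne : ∀ u ∈ W, u ≠ v := fun u hu e => hvW (e ▸ hu)
  refine ⟨Function.update σ v τ, ?_, ?_, ?_, ?_, ?_, ?_⟩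
  · intro x hx y hy i
    rw [mem_insert] at hx hy
    rcases hx with rfl | hx <;> rcases hy with rfl | hy
    · intro hR
      exact (C.adj hR).ne rfl
    · rw [Function.update_self, Function.update_of_ne (hne y hy)]
      intro hR
      exact (hτ i).1 y hy (C.symm hR)
    · rw [Function.update_self, Function.update_of_ne (hne x hx)]
      exact (hτ i).1 x hx
    · rw [Function.update_of_ne (hne x hx), Function.update_of_ne (hne y hy)]
      exact h.good x hx y hy i
  · intro u hu
    rw [mem_erase] at hu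
    refine ⟨(h.act u hu.2).1, ?_⟩
    rw [mem_insert]
    rintro (h1 | h1)
    · exact hu.1 h1
    · exact (h.act u hu.2).2 h1
  · intro u hu
    exact h.mat u (mem_of_mem_erase hu)
  · intro u hu x hx i c hc
    rw [mem_insert] at hx
    rcases hx with rfl | hx
    · rw [Function.update_self]
      intro hR
      exact (hτ i).2 u hu c hc (C.symm hR)
    · rw [Function.update_of_ne (hne x hx)]
      exact h.avoid u (mem_of_mem_erase hu) x hx i c hc
  · intro u hu x hx
    exact h.disj u (mem_of_mem_erase hu) x (mem_of_mem_erase hx)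
  · intro u hu S T hV
    refine h.hit u (mem_of_mem_erase hu) S T ?_
    -- the new colour covers at most one cell of each row and column
    have hnbu : nb G (U \ insert v W) u + (if G.Adj v u then 1 else 0) ≤ nb G (U \ W) u := by
      by_cases hadj : G.Adj v u
      · rw [if_pos hadj]
        unfold nb
        have h1 : insert v ((U \ insert v W).filter (fun x => G.Adj u x)) ⊆
            (U \ W).filter (fun x => G.Adj u x) := by
          intro x hx
          rw [mem_insert, mem_filter, mem_sdiff, mem_insert] at hx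
          rw [mem_filter, mem_sdiff]
          rcases hx with rfl | ⟨⟨h2, h3⟩, h4⟩
          · exact ⟨⟨hXU hvX, hvW⟩, hadj.symm⟩
          · exact ⟨⟨h2, fun h5 => h3 (Or.inr h5)⟩, h4⟩
        have h2 := card_le_card h1
        rw [card_insert_of_notMem] at h2
        · exact h2
        · simp
      · rw [if_neg hadj, add_zero]
        apply nb_mono
        intro x hx
        rw [mem_sdiff, mem_insert] at hx
        rw [mem_sdiff]
        exact ⟨hx.1, fun h5 => hx.2 (Or.inr h5)⟩
    have hstep : ∀ s t, Bo C σ W u s t → ¬ Bo C (Function.update σ v τ) (insert v W) u s t →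
        C.R v u (τ s) t := by
      intro s t h1 h2
      unfold Bo at h1 h2
      push Not at h2
      obtain ⟨x, hx, hR⟩ := h2
      rw [mem_insert] at hx
      rcases hx with rfl | hx
      · rwa [Function.update_self] at hR
      · rw [Function.update_of_ne (hne x hx)] at hR
        exact absurd hR (h1 x hx)
    refine ⟨hV.card, fun s hs => ?_, fun t ht => ?_⟩
    · have h1 : T.filter (fun t => Bo C σ W u s t) ⊆
          T.filter (fun t => Bo C (Function.update σ v τ) (insert v W) u s t) ∪
            univ.filter (fun t => C.R v u (τ s) t) := by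
        intro t ht
        rw [mem_filter] at ht
        rw [mem_union, mem_filter, mem_filter]
        by_cases h2 : Bo C (Function.update σ v τ) (insert v W) u s t
        · exact Or.inl ⟨ht.1, h2⟩
        · exact Or.inr ⟨mem_univ _, hstep s t ht.2 h2⟩
      have h2 : (univ.filter (fun t => C.R v u (τ s) t)).card ≤ if G.Adj v u then 1 else 0 := by
        by_cases hadj : G.Adj v u
        · rw [if_pos hadj, card_le_one]
          intro x hx y hy
          rw [mem_filter] at hx hy
          exact C.inj hx.2 hy.2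
        · rw [if_neg hadj, Nat.le_zero, card_eq_zero, filter_eq_empty_iff]
          intro x _ hR
          exact hadj (C.adj hR)
      have h3 := (card_le_card h1).trans (card_union_le _ _)
      have h4 := hV.row s hs
      omega
    · have h1 : S.filter (fun s => Bo C σ W u s t) ⊆
          S.filter (fun s => Bo C (Function.update σ v τ) (insert v W) u s t) ∪
            univ.filter (fun s => C.R v u (τ s) t) := by
        intro s hs
        rw [mem_filter] at hs
        rw [mem_union, mem_filter, mem_filter]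
        by_cases h2 : Bo C (Function.update σ v τ) (insert v W) u s t
        · exact Or.inl ⟨hs.1, h2⟩
        · exact Or.inr ⟨mem_univ _, hstep s t hs.2 h2⟩
      have h2 : (univ.filter (fun s => C.R v u (τ s) t)).card ≤ if G.Adj v u then 1 else 0 := by
        by_cases hadj : G.Adj v u
        · rw [if_pos hadj, card_le_one]
          intro x hx y hy
          rw [mem_filter] at hx hy
          exact τ.injective (C.inj' hx.2 hy.2)
        · rw [if_neg hadj, Nat.le_zero, card_eq_zero, filter_eq_empty_iff]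
          intro x _ hR
          exact hadj (C.adj hR)
      have h3 := (card_le_card h1).trans (card_union_le _ _)
      have h4 := hV.col t ht
      omega

/-- the marriage condition at an active vertex -/
theorem St.hall_active {C : Conf G K} {μ : V → ℕ} {U X W A : Finset V}
    {σ : V → Equiv.Perm (Fin K)} {Res : V → Finset (Cell K)} (h : St C μ U X W A σ Res)
    (hXU : X ⊆ U) {v : V} (hvA : v ∈ A) :
    ∀ S T : Finset (Fin K), S.card + T.card = K + 1 → ∃ s ∈ S, ∃ t ∈ T,
      (∀ u ∈ W, ¬ C.R u v (σ u s) t) ∧ ∀ u ∈ A.erase v, ∀ c, (s, c) ∈ Res u → ¬ C.R u v c t := by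
  intro S T hST
  by_contra hcon
  push Not at hcon
  have hAU : A.erase v ⊆ U \ W := fun x hx =>
    mem_sdiff.2 ⟨hXU (h.act x (mem_of_mem_erase hx)).1, (h.act x (mem_of_mem_erase hx)).2⟩
  have hf : ∀ u ∈ (A.erase v).filter (fun u => G.Adj v u), IsMat (tr C (Res u) u v) := by
    intro u hu
    rw [mem_filter] at hu
    exact isMat_tr C (h.mat u (mem_of_mem_erase hu.1)).1 _ _
  have hcov : ∀ s ∈ S, ∀ t ∈ T, Bo C σ W v s t →
      ∃ u ∈ (A.erase v).filter (fun u => G.Adj v u), (s, t) ∈ tr C (Res u) u v := by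
    intro s hs t ht hB
    obtain ⟨u, hu, c, hc, hR⟩ := hcon s hs t ht hB
    exact ⟨u, mem_filter.2 ⟨hu, (C.adj hR).symm⟩, mem_tr.2 ⟨c, hc, hR⟩⟩
  have hviol : Viol (Bo C σ W v) (nb G (U \ W) v) S T := by
    refine ⟨hST, fun s hs => ?_, fun t ht => ?_⟩
    · refine (row_cover _ _ hf s _ fun t ht => ?_).trans (nb_mono hAU v)
      rw [mem_filter] at ht
      exact hcov s hs t ht.1 ht.2
    · refine (col_cover _ _ hf t _ fun s hs => ?_).trans (nb_mono hAU v)
      rw [mem_filter] at hs
      exact hcov s hs.1 t ht hs.2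
  obtain ⟨⟨s, t⟩, hx, hs, ht⟩ := h.hit v hvA S T hviol
  obtain ⟨u, hu, hst⟩ := hcov s hs t ht (fun u hu => h.avoid v hvA u hu s t hx)
  rw [mem_filter] at hu
  obtain ⟨c, hc, hR⟩ := mem_tr.1 hst
  exact h.disj u (mem_of_mem_erase hu.1) v hvA s c t hc hx hR

/-- the marriage condition at an inactive vertex -/
theorem St.hall_inactive {C : Conf G K} {μ : V → ℕ} {U X W A : Finset V}
    {σ : V → Equiv.Perm (Fin K)} {Res : V → Finset (Cell K)} (h : St C μ U X W A σ Res)
    {v : V} (hvA : v ∉ A)
    (hnum : ∀ M n : ℕ, M + n = K + 1 → n ≤ M → M ≤ nb G W v + nb G A v →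
      nb G W v * n + ∑ u ∈ A.filter (fun u => G.Adj v u), μ u < n * M) :
    ∀ S T : Finset (Fin K), S.card + T.card = K + 1 → ∃ s ∈ S, ∃ t ∈ T,
      (∀ u ∈ W, ¬ C.R u v (σ u s) t) ∧ ∀ u ∈ A.erase v, ∀ c, (s, c) ∈ Res u → ¬ C.R u v c t := by
  intro S T hST
  rw [erase_eq_of_notMem hvA]
  by_contra hcon
  push Not at hcon
  have hWA : ∀ u ∈ A, u ∉ W := fun u hu => (h.act u hu).2
  let f : V → Finset (Cell K) := fun u => if u ∈ W then tp C (σ u) u v else tr C (Res u) u v
  have hf1 : ∀ u ∈ W.filter (fun u => G.Adj v u), IsMat (f u) := by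
    intro u hu
    rw [mem_filter] at hu
    simp only [f, if_pos hu.1]
    exact isMat_tp _ _ _ _
  have hf2 : ∀ u ∈ A.filter (fun u => G.Adj v u), IsMat (f u) ∧ (f u).card ≤ μ u := by
    intro u hu
    rw [mem_filter] at hu
    simp only [f, if_neg (hWA u hu.1)]
    exact ⟨isMat_tr C (h.mat u hu.1).1 _ _, (card_tr _ _ _ _).trans (h.mat u hu.1).2⟩
  have hcov : ∀ s ∈ S, ∀ t ∈ T, ∃ u ∈ W.filter (fun u => G.Adj v u) ∪
      A.filter (fun u => G.Adj v u), (s, t) ∈ f u := by
    intro s hs t ht
    by_cases hall : ∀ u ∈ W, ¬ C.R u v (σ u s) t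
    · obtain ⟨u, hu, c, hc, hR⟩ := hcon s hs t ht hall
      refine ⟨u, mem_union_right _ (mem_filter.2 ⟨hu, (C.adj hR).symm⟩), ?_⟩
      simp only [f, if_neg (hWA u hu)]
      exact mem_tr.2 ⟨c, hc, hR⟩
    · push Not at hall
      obtain ⟨u, hu, hR⟩ := hall
      refine ⟨u, mem_union_left _ (mem_filter.2 ⟨hu, (C.adj hR).symm⟩), ?_⟩
      simp only [f, if_pos hu]
      exact mem_tp.2 hR
  have hfm : ∀ u ∈ W.filter (fun u => G.Adj v u) ∪ A.filter (fun u => G.Adj v u),
      IsMat (f u) := by
    intro u hu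
    rw [mem_union] at hu
    exact hu.elim (hf1 u) (fun h => (hf2 u h).1)
  have hSK := card_le_K S
  have hTK := card_le_K T
  have hSne : S.Nonempty := by rw [← card_pos]; omega
  have hTne : T.Nonempty := by rw [← card_pos]; omega
  have c4 : ((W.filter (fun u => G.Adj v u)) ∪ (A.filter (fun u => G.Adj v u))).card ≤
      nb G W v + nb G A v := card_union_le _ _
  have c5 : T.card ≤ nb G W v + nb G A v := by
    obtain ⟨s, hs⟩ := hSne
    exact (row_cover _ f hfm s T fun t ht => hcov s hs t ht).trans c4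
  have c6 : S.card ≤ nb G W v + nb G A v := by
    obtain ⟨t, ht⟩ := hTne
    exact (col_cover _ f hfm t S fun s hs => hcov s hs t ht).trans c4
  have c7 : S.card * T.card ≤ nb G W v * min S.card T.card +
      ∑ u ∈ A.filter (fun u => G.Adj v u), μ u :=
    rect_cover _ _ f hf1 μ (fun u hu => (hf2 u hu).2) S T hcov
  have c8 : S.card * T.card = min S.card T.card * max S.card T.card := (min_mul_max _ _).symm
  have c9 := hnum (max S.card T.card) (min S.card T.card) (by rw [max_add_min]; exact hST)
    min_le_max (max_le c6 c5)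
  omega

end Pool.Agent.H97.PackE
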