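import Pool.Agent.H97.PackE.Dyn

/-!
Extending a packing to a valid set of vertices.
-/

open Finset
open scoped Classical

namespace Pool.Agent.H97.PackE

variable {V : Type*} {G : SimpleGraph V} {K : ℕ}

lemma conc (Q a δ s y : ℕ) (h1 : s < Q * a) (h2 : s < (Q - δ) * (a + δ)) (h3 : y ≤ δ) :
    s < (Q - y) * (a + y) := by
  rcases Nat.eq_zero_or_pos y with rfl | hy
  · simpa using h1
  have hδ : 0 < δ := by omega
  have hQ : δ < Q := by
    by_contra hcon
    push Not at hcon
    rw [Nat.sub_eq_zero_of_le hcon, zero_mul] at h2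
    exact absurd h2 (Nat.not_lt_zero _)
  zify [show y ≤ Q by omega, hQ.le] at *
  have e1 : (δ : ℤ) * (((Q : ℤ) - y) * (a + y)) ≥ (δ - y) * (Q * a) + y * ((Q - δ) * (a + δ)) := by
    nlinarith [mul_nonneg (mul_nonneg (show (0 : ℤ) ≤ δ by omega) (show (0 : ℤ) ≤ y by omega))
      (show (0 : ℤ) ≤ δ - y by omega)]
  have e3 : ((δ : ℤ) - y) * (Q * a) ≥ (δ - y) * s :=
    mul_le_mul_of_nonneg_left h1.le (by omega)
  have e4 : (y : ℤ) * ((Q - δ) * (a + δ)) > y * s :=
    mul_lt_mul_of_pos_left h2 (by omega)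
  have e5 : (δ : ℤ) * (((Q : ℤ) - y) * (a + y)) > δ * s := by nlinarith
  exact lt_of_mul_lt_mul_left e5 (by omega)

/-- the global numerical assumptions -/
structure NumG (K k D : ℕ) : Prop where
  hk : 2 * k ≤ K
  hk' : K ≤ 2 * k + 1
  hD1 : 1 ≤ D
  h16 : 16 * D ≤ K + 5

/-- the size of the reserved matching -/
noncomputable def mu (G : SimpleGraph V) (k : ℕ) (U : Finset V) (v : V) : ℕ := 4 * (nb G U v - k) - 1

/-- a valid set -/
structure Valid (G : SimpleGraph V) (K k D : ℕ) (U X : Finset V) : Prop where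
  sub : X ⊆ U
  min : ∀ v ∈ X, k + 1 ≤ nb G U v
  low : ∀ v ∈ X, nb G U v ≤ k + D → nb G (U \ X) v + nb G U v ≤ 2 * k + 1
  high : ∀ v ∈ X, k + D < nb G U v → nb G U v + (4 * D - 1) ≤ K ∧
    (K - k) * (nb G U v - (k + 1)) +
      ∑ u ∈ (X.filter (fun v => nb G U v ≤ k + D)).filter (fun u => G.Adj v u), mu G k U u <
      (K - k) * nb G (X.filter (fun v => nb G U v ≤ k + D)) v

/-- the full state: all critical vertices are active, active vertices have low degree -/
def Full (C : Conf G K) (k D : ℕ) (U X W : Finset V) : Prop :=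
  ∃ (A : Finset V) (σ : V → Equiv.Perm (Fin K)) (Res : V → Finset (Cell K)),
    St C (mu G k U) U X W A σ Res ∧ (∀ z ∈ A, nb G U z ≤ k + D) ∧
    ∀ z ∈ X, z ∉ W → nb G U z ≤ k + D → 2 * k + 1 ≤ nb G W z + nb G U z → z ∈ A

lemma NumG.act {k D : ℕ} (h : NumG K k D) {U W : Finset V} (hWU : W ⊆ U) {z : V}
    (hmin : k + 1 ≤ nb G U z) (hdeg : nb G U z ≤ k + D) (h1 : nb G W z + nb G U z = 2 * k + 1) :
    Act G K k (mu G k U) U W z ∧
      nb G (U \ W) z * (4 * D - 1) < (K - k) * (k + 1 - nb G W z) := by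
  have h2 := nb_split (G := G) hWU z
  have hk := h.hk
  have hk' := h.hk'
  have hD1 := h.hD1
  have h16 := h.h16
  obtain ⟨i, hi⟩ : ∃ i, nb G U z = k + 1 + i := ⟨nb G U z - (k + 1), by omega⟩
  obtain ⟨D', rfl⟩ : ∃ D', D = D' + 1 := ⟨D - 1, by omega⟩
  have hp : nb G (U \ W) z = 2 * i + 1 := by omega
  have ho : k + 1 - nb G W z = i + 1 := by omega
  have h4 : 4 * (D' + 1) - 1 = 4 * D' + 3 := by omega
  refine ⟨⟨h.hk, by omega, ⟨by omega, by omega, by omega⟩, ?_⟩, ?_⟩
  · unfold mu
    omega
  · rw [hp, ho, h4]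
    have h5 : 8 * D' + 6 ≤ K - k := by omega
    have h6 : (8 * D' + 6) * (i + 1) ≤ (K - k) * (i + 1) := Nat.mul_le_mul_right _ h5
    have h7 : (8 * D' + 6) * (i + 1) = (2 * i + 1) * (4 * D' + 3) + (4 * D' + 3) := by ring
    omega

theorem Full.init {C : Conf G K} {k D : ℕ} {U X : Finset V} (hn : NumG K k D)
    (hX : Valid G K k D U X) (σ : V → Equiv.Perm (Fin K)) (h0 : Good C σ (U \ X)) :
    Full C k D U X (U \ X) := by
  have hSt : St C (mu G k U) U X (U \ X) ∅ σ (fun _ => ∅) :=
    ⟨h0, by simp, by simp, by simp, by simp, by simp⟩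
  obtain ⟨Res, hRes⟩ := hSt.activate_all (k := k) (mx := 4 * D - 1) hX.sub
    (X.filter (fun z => nb G U z ≤ k + D ∧ 2 * k + 1 ≤ nb G (U \ X) z + nb G U z))
    (by
      intro z hz
      rw [mem_filter] at hz
      exact ⟨hz.1, fun h => (mem_sdiff.1 h).2 hz.1⟩)
    (by
      intro z hz
      rw [union_empty, mem_filter] at hz
      unfold mu
      omega)
    (by
      intro z hz _
      rw [mem_filter] at hz
      exact hn.act sdiff_subset (hX.min z hz.1) hz.2.1
        (le_antisymm (hX.low z hz.1 hz.2.1) hz.2.2))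
  refine ⟨_, σ, Res, hRes, ?_, ?_⟩
  · intro z hz
    rw [union_empty, mem_filter] at hz
    exact hz.2.1
  · intro z hzX _ h1 h2
    rw [union_empty, mem_filter]
    exact ⟨hzX, h1, h2⟩

/-- one step -/
theorem Full.step {C : Conf G K} {k D : ℕ} {U X W : Finset V} (hn : NumG K k D)
    (hX : Valid G K k D U X) (hWU : W ⊆ U) (h : Full C k D U X W) {v : V} (hvX : v ∈ X)
    (hvW : v ∉ W)
    (hL : k + D < nb G U v → ∀ u ∈ X, nb G U u ≤ k + D → u ∉ W) :
    Full C k D U X (insert v W) := by
  obtain ⟨A, σ, Res, hSt, hA, hact⟩ := h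
  have hAU : A ⊆ U \ W := fun x hx => mem_sdiff.2 ⟨hX.sub (hSt.act x hx).1, (hSt.act x hx).2⟩
  have hk := hn.hk
  have hk' := hn.hk'
  have hD1 := hn.hD1
  have h16 := hn.h16
  have hmu : ∀ u, nb G U u ≤ k + D → mu G k U u ≤ 4 * D - 1 := by
    intro u hu
    unfold mu
    omega
  -- the colour of v
  have hcol : ∃ σ', St C (mu G k U) U X (insert v W) (A.erase v) σ' Res := by
    refine hSt.colour hX.sub hvX hvW ?_
    by_cases hvA : v ∈ A
    · exact hSt.hall_active hX.sub hvA
    refine hSt.hall_inactive hvA ?_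
    intro M n hMn hnM hM
    obtain ⟨y, hy⟩ : ∃ y, M = k + 1 + y := ⟨M - (k + 1), by omega⟩
    have hn' : n = K - k - y := by omega
    have hsplit := nb_split (G := G) hWU v
    have hAle := nb_mono (G := G) hAU v
    have hvmin := hX.min v hvX
    have hsumA : ∑ u ∈ A.filter (fun u => G.Adj v u), mu G k U u ≤ nb G A v * (4 * D - 1) := by
      have := sum_le_card_nsmul (A.filter (fun u => G.Adj v u)) (mu G k U) (4 * D - 1)
        (fun u hu => hmu u (hA u (mem_filter.1 hu).1))
      rwa [smul_eq_mul] at this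
    by_cases hdeg : nb G U v ≤ k + D
    · have he : nb G W v + nb G U v ≤ 2 * k := by
        by_contra hcon
        exact hvA (hact v hvX hvW hdeg (by omega))
      obtain ⟨i, hi⟩ : ∃ i, nb G U v = k + 1 + i := ⟨nb G U v - (k + 1), by omega⟩
      obtain ⟨a, ha⟩ : ∃ a, k + 1 = nb G W v + (i + 2 + a) := ⟨k + 1 - nb G W v - (i + 2), by omega⟩
      obtain ⟨D', rfl⟩ : ∃ D', D = D' + 1 := ⟨D - 1, by omega⟩
      have h4 : 4 * (D' + 1) - 1 = 4 * D' + 3 := by omega
      rw [h4] at hsumA
      have hs : ∑ u ∈ A.filter (fun u => G.Adj v u), mu G k U u ≤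
          (i + 2 + a + i) * (4 * D' + 3) :=
        hsumA.trans (Nat.mul_le_mul_right _ (by omega))
      have h5 : 8 * D' + 6 ≤ K - k := by omega
      have h1 : (i + 2 + a + i) * (4 * D' + 3) < (K - k) * (i + 2 + a) := by
        have h6 : (8 * D' + 6) * (i + 2 + a) ≤ (K - k) * (i + 2 + a) := Nat.mul_le_mul_right _ h5
        have h8 : (8 * D' + 6) * (i + 2 + a) =
            (i + 2 + a + i) * (4 * D' + 3) + (1 + (1 + a) + (2 + a) * (4 * D' + 2)) := by ring
        omega
      have h2 : (i + 2 + a + i) * (4 * D' + 3) < (K - k - i) * (i + 2 + a + i) := by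
        rw [mul_comm]
        exact Nat.mul_lt_mul_of_pos_right (by omega) (by omega)
      have h3 := conc (K - k) (i + 2 + a) i _ y (hs.trans_lt h1) (hs.trans_lt h2) (by omega)
      have h7 : n * M = n * nb G W v + n * (i + 2 + a + y) := by
        rw [← mul_add]
        congr 1
        omega
      rw [h7, mul_comm (nb G W v)]
      rw [← hn'] at h3
      omega
    · push Not at hdeg
      obtain ⟨hV1, hV2⟩ := hX.high v hvX hdeg
      have hLW := hL hdeg
      set L := X.filter (fun v => nb G U v ≤ k + D) with hLdef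
      have hAL : A ⊆ L := fun x hx => mem_filter.2 ⟨(hSt.act x hx).1, hA x hx⟩
      have hLU : L ⊆ U \ W := by
        intro x hx
        rw [hLdef, mem_filter] at hx
        exact mem_sdiff.2 ⟨hX.sub hx.1, hLW x hx.1 hx.2⟩
      have h5 := nb_mono (G := G) hAL v
      have h6 := nb_mono (G := G) hLU v
      have hsAL : ∑ u ∈ A.filter (fun u => G.Adj v u), mu G k U u ≤
          ∑ u ∈ L.filter (fun u => G.Adj v u), mu G k U u :=
        sum_le_sum_of_subset (filter_subset_filter _ hAL)
      have hsL : ∑ u ∈ L.filter (fun u => G.Adj v u), mu G k U u ≤ nb G L v * (4 * D - 1) := by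
        have := sum_le_card_nsmul (L.filter (fun u => G.Adj v u)) (mu G k U) (4 * D - 1)
          (fun u hu => hmu u (mem_filter.1 (mem_filter.1 hu).1).2)
        rwa [smul_eq_mul] at this
      obtain ⟨δ, hδ⟩ : ∃ δ, nb G U v = k + 1 + δ := ⟨nb G U v - (k + 1), by omega⟩
      rw [hδ, Nat.add_sub_cancel_left] at hV2
      -- number of low neighbours exceeds δ
      have h7 : δ < nb G L v := by
        by_contra hcon
        push Not at hcon
        have := Nat.mul_le_mul_left (K - k) hcon
        omega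
      obtain ⟨a, ha⟩ : ∃ a, nb G L v = a + δ := ⟨nb G L v - δ, by omega⟩
      have h1 : ∑ u ∈ L.filter (fun u => G.Adj v u), mu G k U u < (K - k) * a := by
        rw [ha, mul_add] at hV2
        omega
      have h2 : ∑ u ∈ L.filter (fun u => G.Adj v u), mu G k U u < (K - k - δ) * (a + δ) := by
        refine hsL.trans_lt ?_
        rw [ha, mul_comm]
        exact Nat.mul_lt_mul_of_pos_right (by omega) (by omega)
      have h3 := conc (K - k) a δ _ y h1 h2 (by omega)
      have h4 : n * nb G W v + n * (a + y) ≤ n * M := by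
        rw [← mul_add]
        exact Nat.mul_le_mul_left _ (by omega)
      rw [← hn'] at h3
      rw [mul_comm (nb G W v)]
      omega
  obtain ⟨σ', hσ'⟩ := hcol
  have hWU' : insert v W ⊆ U := insert_subset (hX.sub hvX) hWU
  -- newly critical vertices
  obtain ⟨Res', hRes'⟩ := hσ'.activate_all (k := k) (mx := 4 * D - 1) hX.sub
    ((X \ insert v W).filter (fun z => nb G U z ≤ k + D ∧
      2 * k + 1 ≤ nb G (insert v W) z + nb G U z))
    (by
      intro z hz
      rw [mem_filter, mem_sdiff] at hz
      exact ⟨hz.1.1, hz.1.2⟩)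
    (by
      intro z hz
      rw [mem_union, mem_filter, mem_erase] at hz
      rcases hz with hz | hz
      · exact hmu z hz.2.1
      · exact hmu z (hA z hz.2))
    (by
      intro z hz hzA
      rw [mem_filter, mem_sdiff] at hz
      refine hn.act hWU' (hX.min z hz.1.1) hz.2.1 (le_antisymm ?_ hz.2.2)
      by_contra hcon
      push Not at hcon
      have h1 : nb G (insert v W) z ≤ nb G W z + 1 := by
        unfold nb
        rw [filter_insert]
        split_ifs
        · exact card_insert_le _ _
        · omega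
      have hzW : z ∉ W := fun h => hz.1.2 (mem_insert_of_mem h)
      have h2 := hact z hz.1.1 hzW hz.2.1 (by omega)
      apply hzA
      rw [mem_erase]
      exact ⟨fun e => hz.1.2 (e ▸ mem_insert_self v W), h2⟩)
  refine ⟨_, σ', Res', hRes', ?_, ?_⟩
  · intro z hz
    rw [mem_union, mem_filter, mem_erase] at hz
    rcases hz with hz | hz
    · exact hz.2.1
    · exact hA z hz.2
  · intro z hzX hzW h1 h2
    rw [mem_union, mem_filter, mem_sdiff]
    exact Or.inl ⟨⟨hzX, hzW⟩, h1, h2⟩

/-- extending a packing to a valid set -/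
theorem extend_valid (C : Conf G K) {k D : ℕ} {U X : Finset V} (hn : NumG K k D)
    (hX : Valid G K k D U X) (σ0 : V → Equiv.Perm (Fin K)) (h0 : Good C σ0 (U \ X)) :
    ∃ σ, Good C σ U := by
  have hstart := Full.init hn hX σ0 h0
  set R := X.filter (fun v => ¬ nb G U v ≤ k + D) with hR
  have hXR : X.filter (fun v => nb G U v ≤ k + D) ∪ R = X := filter_union_filter_not_eq _ _
  -- first the vertices of high degree
  have phase1 : ∀ Y : Finset V, Y ⊆ R → Full C k D U X (U \ X ∪ Y) := by
    intro Y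
    induction Y using Finset.induction_on with
    | empty => intro _; rwa [union_empty]
    | insert v Y hv ih =>
      intro hY
      have h1 := ih ((subset_insert v Y).trans hY)
      have hvR := hY (mem_insert_self v Y)
      rw [hR, mem_filter] at hvR
      rw [union_insert]
      have hYX : Y ⊆ X := ((subset_insert v Y).trans hY).trans (filter_subset _ _)
      refine Full.step hn hX (union_subset sdiff_subset (hYX.trans hX.sub)) h1 hvR.1 ?_ ?_
      · rw [mem_union, mem_sdiff]
        rintro (h2 | h2)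
        · exact h2.2 hvR.1
        · exact hv h2
      · intro _ u hu hu2 h3
        rw [mem_union, mem_sdiff] at h3
        rcases h3 with h3 | h3
        · exact h3.2 hu
        · exact (mem_filter.1 (hY (mem_insert_of_mem h3))).2 hu2
  -- then the vertices of low degree
  have phase2 : ∀ Y : Finset V, Y ⊆ X.filter (fun v => nb G U v ≤ k + D) →
      Full C k D U X ((U \ X ∪ R) ∪ Y) := by
    intro Y
    induction Y using Finset.induction_on with
    | empty => intro _; rw [union_empty]; exact phase1 R subset_rfl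
    | insert v Y hv ih =>
      intro hY
      have h1 := ih ((subset_insert v Y).trans hY)
      have hvL := hY (mem_insert_self v Y)
      rw [mem_filter] at hvL
      rw [union_insert]
      have hYX : Y ⊆ X := ((subset_insert v Y).trans hY).trans (filter_subset _ _)
      refine Full.step hn hX (union_subset (union_subset sdiff_subset
        ((filter_subset _ _).trans hX.sub)) (hYX.trans hX.sub)) h1 hvL.1 ?_ ?_
      · rw [mem_union, mem_union, mem_sdiff]
        rintro ((h2 | h2) | h2)
        · exact h2.2 hvL.1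
        · exact (mem_filter.1 h2).2 hvL.2
        · exact hv h2
      · intro h2
        exact absurd hvL.2 (by omega)
  obtain ⟨A, σ, Res, hSt, _, _⟩ := phase2 _ subset_rfl
  refine ⟨σ, ?_⟩
  have h1 := hSt.good
  rwa [union_assoc, union_comm R, hXR, sdiff_union_of_subset hX.sub] at h1

/-- greedy extension at a vertex of small degree -/
theorem extend_one (C : Conf G K) {k : ℕ} (hk : 2 * k ≤ K) (U : Finset V) (v : V) (hv : v ∈ U)
    (hdeg : nb G U v ≤ k) (σ0 : V → Equiv.Perm (Fin K)) (h0 : Good C σ0 (U.erase v)) :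
    ∃ σ, Good C σ U := by
  have hSt : St C (fun _ => 0) U U (U.erase v) ∅ σ0 (fun _ => ∅) :=
    ⟨h0, by simp, by simp, by simp, by simp, by simp⟩
  obtain ⟨σ', h'⟩ := hSt.colour subset_rfl hv (notMem_erase v U)
    (hSt.hall_inactive (by simp) (by
      intro M n h1 h2 h3
      have h4 : nb G (∅ : Finset V) v = 0 := by simp [nb]
      rw [h4, nb_erase_self] at h3
      omega))
  refine ⟨σ', ?_⟩
  have := h'.good
  rwa [insert_erase hv] at this

end Pool.Agent.H97.PackE
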