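import Pool.Agent.H97.PackE.Discharge

/-!
Counting the edges of induced subgraphs.
-/

open Finset
open scoped Classical

namespace Pool.Agent.H97.PackE

variable {V : Type*} {G : SimpleGraph V} {K : ℕ}

/-- the sum of the inner degrees is twice the number of edges -/
lemma sum_nb_eq [Fintype V] (Y : Finset V) :
    ∑ v ∈ Y, nb G Y v = 2 * ((⊤ : G.Subgraph).induce (Y : Set V)).edgeSet.ncard := by
  set H := (⊤ : G.Subgraph).induce (Y : Set V) with hH
  have h1 : H.edgeSet.ncard = H.spanningCoe.edgeFinset.card := by
    rw [← Set.ncard_coe_finset, SimpleGraph.coe_edgeFinset, SimpleGraph.Subgraph.edgeSet_spanningCoe]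
  have h2 := H.spanningCoe.sum_degrees_eq_twice_card_edges
  rw [h1]
  have h3 : (∑ v, H.spanningCoe.degree v) = 2 * H.spanningCoe.edgeFinset.card := by
    convert h2
  rw [← h3, ← sum_subset (subset_univ Y)]
  · refine sum_congr rfl fun v hv => ?_
    unfold nb
    rw [← SimpleGraph.card_neighborFinset_eq_degree]
    congr 1
    ext u
    simp only [mem_filter, SimpleGraph.mem_neighborFinset, SimpleGraph.Subgraph.spanningCoe_adj, hH,
      SimpleGraph.Subgraph.induce_adj, SimpleGraph.Subgraph.top_adj, mem_coe]
    tauto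
  · intro v _ hv
    rw [← SimpleGraph.card_neighborFinset_eq_degree, card_eq_zero, eq_empty_iff_forall_notMem]
    intro u hu
    simp only [SimpleGraph.mem_neighborFinset, SimpleGraph.Subgraph.spanningCoe_adj, hH,
      SimpleGraph.Subgraph.induce_adj, SimpleGraph.Subgraph.top_adj, mem_coe] at hu
    exact hv hu.1

end Pool.Agent.H97.PackE
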