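import Mathlib

/-!
Inequalities for pairs of near violators.
-/

namespace Pool.Agent.H97.PackE

lemma num1 (d p u v u' v' : ℤ) (hE : u + v = u' + v') (hEp : u + v ≤ p)
    (hd : 8 * p + 4 + (u + v) ≤ 2 * d) (hu : 0 ≤ u) (huu : u ≤ u') (huv : u' ≤ v) :
    p * (d - u' - 3 * p + 1) < (d - v' - p - v) * (d - u' - 3 * p + 1 - u) := by
  obtain ⟨t, ht⟩ : ∃ t : ℤ, t = 2 * d - (8 * p + 4 + (u + v)) := ⟨_, rfl⟩
  have ht0 : 0 ≤ t := by omega
  have hv' : v' = u + v - u' := by omega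
  subst hv'
  have hd' : 2 * d = 8 * p + 4 + (u + v) + t := by omega
  -- multiply by four
  have h1 : 4 * (p * (d - u' - 3 * p + 1)) < (2 * (d - (u + v - u') - p - v)) *
      (2 * (d - u' - 3 * p + 1 - u)) := by
    have e1 : 2 * (d - (u + v - u') - p - v) = 6 * p + 4 - u - 3 * v + 2 * u' + t := by linarith
    have e2 : 2 * (d - u' - 3 * p + 1 - u) = 2 * p + 6 + v - u - 2 * u' + t := by linarith
    have e3 : 4 * (p * (d - u' - 3 * p + 1)) = 2 * p * (2 * p + 6 + u + v - 2 * u' + t) := by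
      have : 2 * (d - u' - 3 * p + 1) = 2 * p + 6 + u + v - 2 * u' + t := by linarith
      rw [← this]; ring
    rw [e1, e2, e3]
    obtain ⟨a, ha⟩ : ∃ a : ℤ, a = u' - u := ⟨_, rfl⟩
    obtain ⟨b, hb⟩ : ∃ b : ℤ, b = v - u' := ⟨_, rfl⟩
    obtain ⟨r, hr⟩ : ∃ r : ℤ, r = p - (u + v) := ⟨_, rfl⟩
    have ha0 : 0 ≤ a := by omega
    have hb0 : 0 ≤ b := by omega
    have hr0 : 0 ≤ r := by omega
    have h2 : u' = u + a := by omega
    have h3 : v = u + a + b := by omega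
    have h4 : p = r + 2 * u + a + b := by omega
    subst h2
    subst h3
    subst h4
    nlinarith [mul_nonneg hu ha0, mul_nonneg hu hb0, mul_nonneg hu hr0, mul_nonneg ha0 hb0,
      mul_nonneg ha0 hr0, mul_nonneg hb0 hr0, mul_nonneg hu ht0, mul_nonneg ha0 ht0,
      mul_nonneg hb0 ht0, mul_nonneg hr0 ht0, mul_nonneg hu hu, mul_nonneg ha0 ha0,
      mul_nonneg hb0 hb0, mul_nonneg hr0 hr0, mul_nonneg ht0 ht0]
  nlinarith

/-- the intersections are large -/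
lemma num_sigma (d p u v u' v' x z σ τ : ℤ) (hE : u + v = u' + v') (hEp : u + v ≤ p)
    (hd : 8 * p + 4 + (u + v) ≤ 2 * d) (hu : 0 ≤ u) (huu : u ≤ u') (huv : u' ≤ v)
    (hσ : σ = d - u' - x) (hτ : τ = d - v' - z) (hz : z ≤ p + v)
    (P1 : x * (τ - p) ≤ τ * u) : 3 * p ≤ σ := by
  by_contra hcon
  push Not at hcon
  have h1 := num1 d p u v u' v' hE hEp hd hu huu huv
  set g := d - u' - 3 * p + 1 with hg
  have h2 : 0 ≤ x - g := by omega
  have h3 : 0 ≤ τ - p := by omega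
  have h4 : 0 ≤ g - u := by omega
  have h5 : 0 ≤ τ - (d - v' - p - v) := by omega
  nlinarith [mul_nonneg h3 h2, mul_nonneg h5 h4]

lemma num_z (p v z σ : ℤ) (hv : 0 ≤ v) (hσ : 3 * p ≤ σ) (h0 : 0 < σ - p)
    (P2 : z * (σ - p) ≤ σ * v) : 2 * z ≤ 3 * v := by
  have h1 : 2 * z * (σ - p) ≤ 3 * v * (σ - p) := by nlinarith
  exact le_of_mul_le_mul_right h1 h0

lemma num4 (p u v δ T : ℤ) (hE : u + v ≤ p) (hu : 0 ≤ u) (hδ : 0 ≤ δ) (hδ' : δ ≤ v - u)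
    (hT : 7 * p + 4 - v - 2 * δ ≤ T) :
    2 * p * (3 * u + 2 * δ + 1) < T * (u + 2 * δ + 1) := by
  have h1 : (7 * p + 4 - v - 2 * δ) * (u + 2 * δ + 1) ≤ T * (u + 2 * δ + 1) :=
    mul_le_mul_of_nonneg_right hT (by omega)
  refine lt_of_lt_of_le ?_ h1
  obtain ⟨b, hb⟩ : ∃ b : ℤ, b = v - u - δ := ⟨_, rfl⟩
  obtain ⟨r, hr⟩ : ∃ r : ℤ, r = p - (u + v) := ⟨_, rfl⟩
  have hb0 : 0 ≤ b := by omega
  have hr0 : 0 ≤ r := by omega
  have h3 : v = u + δ + b := by omega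
  subst h3
  have h4 : p = r + 2 * u + δ + b := by omega
  subst h4
  nlinarith [mul_nonneg hu hδ, mul_nonneg hu hb0, mul_nonneg hu hr0, mul_nonneg hδ hb0,
    mul_nonneg hδ hr0, mul_nonneg hb0 hr0, mul_nonneg hu hu, mul_nonneg hδ hδ]

/-- sharper bounds for the intersections -/
lemma pair_num (d p u v u' v' x z σ τ : ℤ) (hE : u + v = u' + v') (hEp : u + v ≤ p)
    (hd : 8 * p + 4 + (u + v) ≤ 2 * d) (hu : 0 ≤ u) (huu : u ≤ u') (huv : u' ≤ v)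
    (hσ : σ = d - u' - x) (hτ : τ = d - v' - z) (hx0 : 0 ≤ x) (hx : x ≤ p + u) (hz : z ≤ p + v)
    (P1 : x * (τ - p) ≤ τ * u) (P2 : z * (σ - p) ≤ σ * v) :
    2 * d - 2 * v - 3 * u ≤ 2 * σ ∧ 2 * d - 5 * v ≤ 2 * τ := by
  have h1 := num_sigma d p u v u' v' x z σ τ hE hEp hd hu huu huv hσ hτ hz P1
  have h2 := num_z p v z σ (by omega) h1 (by omega) P2
  have h3 : 2 * d - 5 * v ≤ 2 * τ := by omega
  refine ⟨?_, h3⟩
  by_contra hcon
  push Not at hcon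
  set δ := v - u' with hδ
  have h4 : 3 * u + 2 * δ + 1 ≤ 2 * x := by omega
  have h5 := num4 p u v δ (2 * τ) hEp hu (by omega) (by omega) (by omega)
  have h6 : 0 ≤ τ - p := by omega
  nlinarith [mul_nonneg h6 (sub_nonneg.2 h4)]

/-- the final count -/
lemma final_num (d p u v a b : ℤ) (hEp : u + v ≤ p)
    (hd : 8 * p + 4 + (u + v) ≤ 2 * d) (hu : 0 ≤ u) (huv : u ≤ v)
    (ha : a * (2 * d - 5 * v - 2 * p) ≤ 2 * ((d - v) * u))
    (hb : b * (2 * d - 2 * v - 3 * u - 2 * p) ≤ 2 * ((d - u) * v)) : a + b ≤ 2 * p := by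
  -- b is at most nine fifths of v
  have h1 : 5 * b ≤ 9 * v := by
    have h2 : 10 * (d - u) ≤ 9 * (2 * d - 2 * v - 3 * u - 2 * p) := by linarith
    have h3 : 0 < 2 * d - 2 * v - 3 * u - 2 * p := by linarith
    have h4 : 5 * b * (2 * d - 2 * v - 3 * u - 2 * p) ≤
        9 * v * (2 * d - 2 * v - 3 * u - 2 * p) := by
      nlinarith [mul_le_mul_of_nonneg_left h2 (show (0 : ℤ) ≤ v by omega)]
    exact le_of_mul_le_mul_right h4 h3
  by_contra hcon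
  push Not at hcon
  have h5 : 10 * p + 5 - 9 * v ≤ 5 * a := by omega
  have h6 : 0 ≤ 2 * d - 5 * v - 2 * p := by omega
  have h7 : (10 * p + 5 - 9 * v) * (2 * d - 5 * v - 2 * p) ≤ 10 * ((d - v) * u) := by
    nlinarith [mul_le_mul_of_nonneg_right h5 h6]
  obtain ⟨t, ht⟩ : ∃ t : ℤ, t = 2 * d - (8 * p + 4 + (u + v)) := ⟨_, rfl⟩
  have ht0 : 0 ≤ t := by omega
  have e1 : 2 * d - 5 * v - 2 * p = 6 * p + 4 + u - 4 * v + t := by omega
  have e2 : 10 * ((d - v) * u) = 5 * u * (8 * p + 4 + u - v + t) := by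
    have : 2 * (d - v) = 8 * p + 4 + u - v + t := by omega
    rw [← this]; ring
  rw [e1, e2] at h7
  obtain ⟨w, hw⟩ : ∃ w : ℤ, w = v - u := ⟨_, rfl⟩
  obtain ⟨r, hr⟩ : ∃ r : ℤ, r = p - (u + v) := ⟨_, rfl⟩
  have hw0 : 0 ≤ w := by omega
  have hr0 : 0 ≤ r := by omega
  have h8 : v = u + w := by omega
  subst h8
  have h9 : p = r + 2 * u + w := by omega
  subst h9
  nlinarith [mul_nonneg hu hw0, mul_nonneg hu hr0, mul_nonneg hw0 hr0, mul_nonneg hu ht0,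
    mul_nonneg hw0 ht0, mul_nonneg hr0 ht0, mul_nonneg hu hu, mul_nonneg hw0 hw0,
    mul_nonneg hr0 hr0, sq_nonneg (u - w), sq_nonneg (2 * u - w), sq_nonneg (u - 2 * w)]

end Pool.Agent.H97.PackE
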