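import Pool.Agent.H97.PackE.Basic
import Pool.Agent.H97.PackE.NumPair

/-!
The pairs `(S, T)` of sets of rows and columns with `|S| + |T| = K + 1` whose rectangle contains at most
`p` cells of `B` in each row and in each column: all of them live in one block of excess at most
`2 p + 1`.
-/

open Finset
open scoped Classical

namespace Pool.Agent.H97.PackE

variable {K : ℕ}

/-- a near violator of Hall's condition -/
structure Viol (B : Fin K → Fin K → Prop) (p : ℕ) (S T : Finset (Fin K)) : Prop where
  card : S.card + T.card = K + 1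
  row : ∀ s ∈ S, (T.filter (fun t => B s t)).card ≤ p
  col : ∀ t ∈ T, (S.filter (fun s => B s t)).card ≤ p

/-- at most `o` cells outside `B` in each row and in each column -/
structure Obd (B : Fin K → Fin K → Prop) (o : ℕ) : Prop where
  row : ∀ s, (univ.filter (fun t => ¬ B s t)).card ≤ o
  col : ∀ t, (univ.filter (fun s => ¬ B s t)).card ≤ o

lemma Viol.swap {B : Fin K → Fin K → Prop} {p : ℕ} {S T : Finset (Fin K)} (h : Viol B p S T) :
    Viol (fun s t => B t s) p T S :=
  ⟨by rw [add_comm]; exact h.card, h.col, h.row⟩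

lemma Obd.swap {B : Fin K → Fin K → Prop} {o : ℕ} (h : Obd B o) : Obd (fun s t => B t s) o :=
  ⟨h.col, h.row⟩

/-- the numerical assumptions -/
structure Num (K o p : ℕ) : Prop where
  hp : 1 ≤ p
  h8 : 8 * p + 3 ≤ K
  hop : 2 * (o + p) ≤ K + 1 + p

section

variable {B : Fin K → Fin K → Prop} {o p : ℕ} {S T S' T' : Finset (Fin K)}

lemma card_le_K (S : Finset (Fin K)) : S.card ≤ K := by simpa using card_le_univ S

lemma Viol.left_nonempty (h : Viol B p S T) : S.Nonempty := by
  rw [← card_pos]
  have := h.card
  have := card_le_K T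
  omega

lemma Viol.right_nonempty (h : Viol B p S T) : T.Nonempty := h.swap.left_nonempty

/-- many cells outside `B` in each row of the rectangle -/
lemma Viol.non_row (h : Viol B p S T) {s : Fin K} (hs : s ∈ S) :
    T.card ≤ (T.filter (fun t => ¬ B s t)).card + p := by
  have h1 := card_filter_add_card_filter_not (s := T) (fun t => B s t)
  have h2 := h.row s hs
  omega

lemma Viol.right_card (h : Viol B p S T) (hB : Obd B o) : T.card ≤ o + p := by
  obtain ⟨s, hs⟩ := h.left_nonempty
  have h1 := h.non_row hs
  have h2 : (T.filter (fun t => ¬ B s t)).card ≤ (univ.filter (fun t => ¬ B s t)).card :=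
    card_le_card (filter_subset_filter _ (subset_univ _))
  have h3 := hB.row s
  omega

lemma Viol.left_card (h : Viol B p S T) (hB : Obd B o) : S.card ≤ o + p :=
  h.swap.right_card hB.swap

lemma Viol.union_card (h : Viol B p S T) (h' : Viol B p S' T') (hB : Obd B o) {c : Fin K}
    (hc : c ∈ T) (hc' : c ∈ T') : (S ∪ S').card ≤ o + 2 * p := by
  have h1 : S ∪ S' ⊆ (univ.filter (fun s => ¬ B s c)) ∪ ((S.filter (fun s => B s c)) ∪
      (S'.filter (fun s => B s c))) := by
    intro s hs
    simp only [mem_union, mem_filter, mem_univ, true_and] at hs ⊢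
    tauto
  have h2 := card_le_card h1
  have h3 := card_union_le (univ.filter (fun s => ¬ B s c)) ((S.filter (fun s => B s c)) ∪
      (S'.filter (fun s => B s c)))
  have h4 := card_union_le (S.filter (fun s => B s c)) (S'.filter (fun s => B s c))
  have h5 := h.col c hc
  have h6 := h'.col c hc'
  have h7 := hB.col c
  omega

lemma Viol.inter (h : Viol B p S T) (h' : Viol B p S' T') (hB : Obd B o) (hn : Num K o p) :
    (T ∩ T').Nonempty := by
  have hn8 := hn.h8
  have hnop := hn.hop
  have hnp := hn.hp
  have a1 := h.right_card hB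
  have a2 := h.left_card hB
  have a3 := h'.right_card hB
  have a4 := h'.left_card hB
  have b1 := h.card
  have b2 := h'.card
  by_contra hTT
  rw [not_nonempty_iff_eq_empty] at hTT
  have c1 : (T ∪ T').card = T.card + T'.card := by
    have := card_union_add_card_inter T T'
    rw [hTT, card_empty] at this
    omega
  have c2 := card_le_K (T ∪ T')
  by_cases hSS : (S ∩ S').Nonempty
  · obtain ⟨c, hc⟩ := hSS
    rw [mem_inter] at hc
    have := h.swap.union_card h'.swap hB.swap hc.1 hc.2
    omega
  · rw [not_nonempty_iff_eq_empty] at hSS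
    have d1 : (S ∪ S').card = S.card + S'.card := by
      have := card_union_add_card_inter S S'
      rw [hSS, card_empty] at this
      omega
    have d2 := card_le_K (S ∪ S')
    omega

/-- rows outside a near violator -/
lemma Viol.sdiff_count (h : Viol B p S T) (h' : Viol B p S' T') (hB : Obd B o) :
    (S' \ S).card * ((T ∩ T').card - p) ≤ (T ∩ T').card * (o + p - S.card) := by
  have hdc := sum_card_bipartiteAbove_eq_sum_card_bipartiteBelow (s := S' \ S) (t := T ∩ T')
    (fun s c => ¬ B s c)
  have e1 : (S' \ S).card * ((T ∩ T').card - p) ≤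
      ∑ s ∈ S' \ S, (bipartiteAbove (fun s c => ¬ B s c) (T ∩ T') s).card := by
    rw [← smul_eq_mul]
    refine card_nsmul_le_sum _ _ _ fun s hs => ?_
    have f1 := card_filter_add_card_filter_not (s := T ∩ T') (fun t => B s t)
    have f2 : ((T ∩ T').filter (fun t => B s t)).card ≤ (T'.filter (fun t => B s t)).card :=
      card_le_card (filter_subset_filter _ inter_subset_right)
    have f3 := h'.row s (mem_sdiff.1 hs).1
    show (T ∩ T').card - p ≤ ((T ∩ T').filter (fun t => ¬ B s t)).card
    omega
  have e2 : ∑ c ∈ T ∩ T', (bipartiteBelow (fun s c => ¬ B s c) (S' \ S) c).card ≤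
      (T ∩ T').card * (o + p - S.card) := by
    rw [← smul_eq_mul]
    refine sum_le_card_nsmul _ _ _ fun c hc => ?_
    have f1 : Disjoint (bipartiteBelow (fun s c => ¬ B s c) (S' \ S) c)
        (S.filter (fun s => ¬ B s c)) := by
      rw [disjoint_left]
      intro s hs hs'
      rw [mem_bipartiteBelow] at hs
      rw [mem_filter] at hs'
      exact (mem_sdiff.1 hs.1).2 hs'.1
    have f2 : (bipartiteBelow (fun s c => ¬ B s c) (S' \ S) c) ∪ (S.filter (fun s => ¬ B s c)) ⊆
        univ.filter (fun s => ¬ B s c) := by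
      intro s hs
      simp only [bipartiteBelow, mem_union, mem_filter, mem_univ, true_and] at hs ⊢
      tauto
    have f3 := card_le_card f2
    rw [card_union_of_disjoint f1] at f3
    have f4 := h.swap.non_row (mem_inter.1 hc).1
    have f5 := hB.col c
    omega
  rw [hdc] at e1
  exact e1.trans e2

/-- the intersections with an extremal near violator are large -/
lemma Viol.pair (h : Viol B p S T) (h' : Viol B p S' T') (hB : Obd B o) (hn : Num K o p)
    (hS' : S'.card ≤ S.card) (hT' : T'.card ≤ S.card) :
    2 * T.card + S.card ≤ o + p + 2 * (S ∩ S').card + 2 * (o + p - S.card) ∧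
      5 * T.card ≤ 3 * (o + p) + 2 * (T ∩ T').card := by
  have hn8 := hn.h8
  have hnop := hn.hop
  have hnp := hn.hp
  have a1 := h.right_card hB
  have a2 := h.left_card hB
  have a3 := h'.right_card hB
  have a4 := h'.left_card hB
  have b1 := h.card
  have b2 := h'.card
  obtain ⟨c, hc⟩ := h.inter h' hB hn
  rw [mem_inter] at hc
  obtain ⟨c', hc'⟩ := h.swap.inter h'.swap hB.swap hn
  rw [mem_inter] at hc'
  have c1 := h.union_card h' hB hc.1 hc.2
  have c2 := h.swap.union_card h'.swap hB.swap hc'.1 hc'.2
  have c3 := card_union_add_card_inter S S'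
  have c4 := card_union_add_card_inter T T'
  have c5 := h.sdiff_count h' hB
  have c6 := h.swap.sdiff_count h'.swap hB.swap
  have c7 : (S' \ S).card + (S ∩ S').card = S'.card := by
    rw [inter_comm]; exact card_sdiff_add_card_inter S' S
  have c8 : (T' \ T).card + (T ∩ T').card = T'.card := by
    rw [inter_comm]; exact card_sdiff_add_card_inter T' T
  -- integer form
  have e1 : p ≤ (T ∩ T').card := by omega
  have e2 : p ≤ (S ∩ S').card := by omega
  have P1 : (((S' \ S).card : ℤ)) * ((T ∩ T').card - p) ≤ (T ∩ T').card * (((o + p : ℕ) : ℤ) - S.card) := by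
    have := c5
    zify [e1, a2] at this
    push_cast
    exact this
  have P2 : (((T' \ T).card : ℤ)) * ((S ∩ S').card - p) ≤ (S ∩ S').card * (((o + p : ℕ) : ℤ) - T.card) := by
    have := c6
    zify [e2, a1] at this
    push_cast
    exact this
  have key := pair_num ((o + p : ℕ) : ℤ) p (((o + p : ℕ) : ℤ) - S.card) (((o + p : ℕ) : ℤ) - T.card)
    (((o + p : ℕ) : ℤ) - S'.card) (((o + p : ℕ) : ℤ) - T'.card) ((S' \ S).card) ((T' \ T).card)
    ((S ∩ S').card) ((T ∩ T').card) (by omega) (by omega) (by omega) (by omega) (by omega) (by omega)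
    (by omega) (by omega) (by omega) (by omega) (by omega) P1 P2
  omega

/-- the union of the column sets of near violators -/
noncomputable def Tc (B : Fin K → Fin K → Prop) (p : ℕ) : Finset (Fin K) :=
  univ.filter (fun t => ∃ S T, Viol B p S T ∧ t ∈ T)

/-- the union of the row sets of near violators -/
noncomputable def Sc (B : Fin K → Fin K → Prop) (p : ℕ) : Finset (Fin K) :=
  univ.filter (fun t => ∃ S T, Viol B p S T ∧ t ∈ S)

lemma Sc_eq : Sc B p = Tc (fun s t => B t s) p := by
  ext t
  simp only [Sc, Tc, mem_filter, mem_univ, true_and]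
  constructor
  · rintro ⟨S, T, h, ht⟩
    exact ⟨T, S, h.swap, ht⟩
  · rintro ⟨S, T, h, ht⟩
    exact ⟨T, S, h.swap, ht⟩

lemma Viol.sub_Tc (h : Viol B p S T) : T ⊆ Tc B p := by
  intro t ht
  rw [Tc, mem_filter]
  exact ⟨mem_univ _, S, T, h, ht⟩

lemma Viol.sub_Sc (h : Viol B p S T) : S ⊆ Sc B p := by
  intro t ht
  rw [Sc, mem_filter]
  exact ⟨mem_univ _, S, T, h, ht⟩

/-- counting cells outside `B` between the rows of a near violator and further columns -/
lemma Viol.few_cols (h : Viol B p S T) (hB : Obd B o) (m : ℕ) (hm : ∀ S' T', Viol B p S' T' →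
    m ≤ (S ∩ S').card) :
    (Tc B p \ T).card * (m - p) ≤ S.card * (o + p - T.card) := by
  have hdc := sum_card_bipartiteAbove_eq_sum_card_bipartiteBelow (s := Tc B p \ T) (t := S)
    (fun c s => ¬ B s c)
  have e1 : (Tc B p \ T).card * (m - p) ≤
      ∑ c ∈ Tc B p \ T, (bipartiteAbove (fun c s => ¬ B s c) S c).card := by
    rw [← smul_eq_mul]
    refine card_nsmul_le_sum _ _ _ fun c hc => ?_
    rw [mem_sdiff, Tc, mem_filter] at hc
    obtain ⟨⟨_, S', T', h', hc'⟩, hcT⟩ := hc
    have f1 := hm S' T' h'
    have f2 := card_filter_add_card_filter_not (s := S ∩ S') (fun s => B s c)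
    have f3 : ((S ∩ S').filter (fun s => B s c)).card ≤ (S'.filter (fun s => B s c)).card :=
      card_le_card (filter_subset_filter _ inter_subset_right)
    have f4 := h'.col c hc'
    have f5 : ((S ∩ S').filter (fun s => ¬ B s c)).card ≤ (S.filter (fun s => ¬ B s c)).card :=
      card_le_card (filter_subset_filter _ inter_subset_left)
    show m - p ≤ (S.filter (fun s => ¬ B s c)).card
    omega
  have e2 : ∑ s ∈ S, (bipartiteBelow (fun c s => ¬ B s c) (Tc B p \ T) s).card ≤
      S.card * (o + p - T.card) := by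
    rw [← smul_eq_mul]
    refine sum_le_card_nsmul _ _ _ fun s hs => ?_
    have f1 : Disjoint (bipartiteBelow (fun c s => ¬ B s c) (Tc B p \ T) s)
        (T.filter (fun t => ¬ B s t)) := by
      rw [disjoint_left]
      intro c hc hc'
      rw [mem_bipartiteBelow] at hc
      rw [mem_filter] at hc'
      exact (mem_sdiff.1 hc.1).2 hc'.1
    have f2 : (bipartiteBelow (fun c s => ¬ B s c) (Tc B p \ T) s) ∪
        (T.filter (fun t => ¬ B s t)) ⊆ univ.filter (fun t => ¬ B s t) := by
      intro c hc
      simp only [bipartiteBelow, mem_union, mem_filter, mem_univ, true_and] at hc ⊢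
      tauto
    have f3 := card_le_card f2
    rw [card_union_of_disjoint f1] at f3
    have f4 := h.non_row hs
    have f5 := hB.row s
    omega
  rw [hdc] at e1
  exact e1.trans e2

/-- the block has small excess: extremal near violator with many rows -/
lemma Viol.excess_aux (h : Viol B p S T) (hB : Obd B o) (hn : Num K o p)
    (hmax : ∀ S' T', Viol B p S' T' → S'.card ≤ S.card ∧ T'.card ≤ S.card) :
    (Sc B p).card + (Tc B p).card ≤ K + (2 * p + 1) := by
  have hn8 := hn.h8
  have hnop := hn.hop
  have hnp := hn.hp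
  have a1 := h.right_card hB
  have a2 := h.left_card hB
  have b1 := h.card
  have b2 := (hmax S T h).2
  have hpair := fun S' T' (h' : Viol B p S' T') => h.pair h' hB hn (hmax S' T' h').1 (hmax S' T' h').2
  -- doubled bounds
  have c1 : (Tc B p \ T).card * (2 * T.card + 3 * S.card - (3 * (o + p) + 2 * p)) ≤
      2 * (S.card * (o + p - T.card)) := by
    have := h.few_cols hB ((2 * T.card + 3 * S.card - 3 * (o + p) + 1) / 2)
      (fun S' T' h' => by have := (hpair S' T' h').1; omega)
    calc (Tc B p \ T).card * (2 * T.card + 3 * S.card - (3 * (o + p) + 2 * p)) ≤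
        (Tc B p \ T).card * (2 * ((2 * T.card + 3 * S.card - 3 * (o + p) + 1) / 2 - p)) :=
          Nat.mul_le_mul_left _ (by omega)
      _ = 2 * ((Tc B p \ T).card * ((2 * T.card + 3 * S.card - 3 * (o + p) + 1) / 2 - p)) := by
          ring
      _ ≤ _ := Nat.mul_le_mul_left _ this
  have c2 : (Sc B p \ S).card * (5 * T.card - (3 * (o + p) + 2 * p)) ≤
      2 * (T.card * (o + p - S.card)) := by
    have := h.swap.few_cols hB.swap ((5 * T.card - 3 * (o + p) + 1) / 2)
      (fun T' S' h' => by have := (hpair S' T' h'.swap).2; omega)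
    rw [← Sc_eq] at this
    calc (Sc B p \ S).card * (5 * T.card - (3 * (o + p) + 2 * p)) ≤
        (Sc B p \ S).card * (2 * ((5 * T.card - 3 * (o + p) + 1) / 2 - p)) :=
          Nat.mul_le_mul_left _ (by omega)
      _ = 2 * ((Sc B p \ S).card * ((5 * T.card - 3 * (o + p) + 1) / 2 - p)) := by
          ring
      _ ≤ _ := Nat.mul_le_mul_left _ this
  have c3 := card_sdiff_add_card_eq_card h.sub_Tc
  have c4 := card_sdiff_add_card_eq_card h.sub_Sc
  have g1 : 3 * (o + p) + 2 * p ≤ 2 * T.card + 3 * S.card := by omega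
  have g2 : 3 * (o + p) + 2 * p ≤ 5 * T.card := by omega
  have key := final_num ((o + p : ℕ) : ℤ) p (((o + p : ℕ) : ℤ) - S.card)
    (((o + p : ℕ) : ℤ) - T.card) ((Sc B p \ S).card) ((Tc B p \ T).card) (by omega) (by omega)
    (by omega) (by omega)
    (by
      have := c2
      zify [g2, a2] at this
      push_cast
      nlinarith)
    (by
      have := c1
      zify [g1, a1] at this
      push_cast
      nlinarith)
  omega

/-- the block has small excess -/
lemma excess_le (h : Viol B p S T) (hB : Obd B o) (hn : Num K o p) :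
    (Sc B p).card + (Tc B p).card ≤ K + (2 * p + 1) := by
  obtain ⟨⟨S0, T0⟩, hmem, hmax⟩ := exists_max_image
    (univ.filter (fun x : Finset (Fin K) × Finset (Fin K) => Viol B p x.1 x.2))
    (fun x => max x.1.card x.2.card) ⟨(S, T), mem_filter.2 ⟨mem_univ _, h⟩⟩
  rw [mem_filter] at hmem
  have h0 : Viol B p S0 T0 := hmem.2
  have hmax' : ∀ S' T', Viol B p S' T' → max S'.card T'.card ≤ max S0.card T0.card :=
    fun S' T' h' => hmax (S', T') (mem_filter.2 ⟨mem_univ _, h'⟩)
  rcases le_total T0.card S0.card with hle | hle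
  · refine h0.excess_aux hB hn fun S' T' h' => ?_
    have := hmax' S' T' h'
    rw [max_eq_left hle] at this
    exact max_le_iff.1 this
  · have h1 := h0.swap.excess_aux hB.swap hn fun T' S' h' => by
      have := hmax' S' T' h'.swap
      rw [max_eq_right hle] at this
      exact ⟨(max_le_iff.1 this).2, (max_le_iff.1 this).1⟩
    rw [Sc_eq] at h1
    rw [Sc_eq]
    change (Tc B p).card + (Tc (fun s t => B t s) p).card ≤ _ at h1
    omega

/-- cells of `B` in a block of excess one -/
lemma count_aux {k : ℕ} (hk : 2 * k ≤ K) (ho : o ≤ k) (hB : Obd B o) (S T : Finset (Fin K))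
    (hST : S.card + T.card = K + 1) (hTk : k + 1 ≤ T.card) (hT : T.card + (k - o) ≤ K)
    (W : Finset (Cell K)) (hW : ∀ s ∈ S, ∀ t ∈ T, B s t → (s, t) ∈ W) :
    (K - k) * (k + 1 - o) ≤ W.card := by
  have h1 : S.card * (T.card - o) ≤ ((S ×ˢ T).filter (fun x => B x.1 x.2)).card := by
    have h2 : ((S ×ˢ T).filter (fun x => B x.1 x.2)).card =
        ∑ i ∈ S, (((S ×ˢ T).filter (fun x => B x.1 x.2)).filter (fun x => x.1 = i)).card :=
      card_eq_sum_card_fiberwise (fun x hx => (mem_product.1 (mem_filter.1 hx).1).1)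
    rw [h2, ← smul_eq_mul]
    refine card_nsmul_le_sum _ _ _ fun i hi => ?_
    have h3 : (T.filter (fun t => B i t)).card ≤
        (((S ×ˢ T).filter (fun x => B x.1 x.2)).filter (fun x => x.1 = i)).card := by
      refine card_le_card_of_injOn (fun t => (i, t)) ?_ ?_
      · intro t ht
        simp only [coe_filter, Set.mem_ofPred_eq] at ht
        simp only [coe_filter, mem_filter, mem_product, Set.mem_ofPred_eq, and_true]
        exact ⟨⟨hi, ht.1⟩, ht.2⟩
      · intro s _ t _ hst
        exact (Prod.ext_iff.1 hst).2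
    have h4 := card_filter_add_card_filter_not (s := T) (fun t => B i t)
    have h5 : (T.filter (fun t => ¬ B i t)).card ≤ (univ.filter (fun t => ¬ B i t)).card :=
      card_le_card (filter_subset_filter _ (subset_univ _))
    have h6 := hB.row i
    omega
  have h2 : ((S ×ˢ T).filter (fun x => B x.1 x.2)).card ≤ W.card := by
    apply card_le_card
    intro x hx
    rw [mem_filter, mem_product] at hx
    exact hW x.1 hx.1.1 x.2 hx.1.2 hx.2
  refine le_trans ?_ (h1.trans h2)
  obtain ⟨j, hj⟩ : ∃ j, k = o + j := ⟨k - o, by omega⟩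
  obtain ⟨y, hy⟩ : ∃ y, T.card = k + 1 + y := ⟨T.card - (k + 1), by omega⟩
  have e1 : S.card = K - k - y := by omega
  have e2 : j + 1 + y ≤ T.card - o := by omega
  have e0 : k + 1 - o = j + 1 := by omega
  rw [e0]
  refine le_trans ?_ (Nat.mul_le_mul_left _ e2)
  rw [e1]
  obtain ⟨z, hz⟩ : ∃ z, K - k = y + (j + 1) + z := ⟨K - k - y - (j + 1), by omega⟩
  rw [hz]
  have e3 : y + (j + 1) + z - y = j + 1 + z := by omega
  rw [e3]
  nlinarith

/-- the structure of near violators: they are hit by a small matching avoiding a given small set of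
cells -/
theorem exists_hitting {k : ℕ} (hk : 2 * k ≤ K) (ho : o ≤ k) (hB : Obd B o)
    (hn : Num K o p) (F : Finset (Cell K)) (hF : F.card < (K - k) * (k + 1 - o)) :
    ∃ M : Finset (Cell K), IsMat M ∧ M.card ≤ 2 * p + 1 ∧ (∀ x ∈ M, B x.1 x.2 ∧ x ∉ F) ∧
      ∀ S T, Viol B p S T → ∃ x ∈ M, x.1 ∈ S ∧ x.2 ∈ T := by
  by_cases hex : ∃ S T, Viol B p S T
  · obtain ⟨S0, T0, h0⟩ := hex
    have hn8 := hn.h8
    have hnop := hn.hop
    have hnp := hn.hp
    have hexc := excess_le h0 hB hn
    have b0 := h0.card
    have b1 := card_le_card h0.sub_Tc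
    have b2 := card_le_card h0.sub_Sc
    have c1 := h0.left_card hB
    have c2 := h0.right_card hB
    set m := (Sc B p).card + (Tc B p).card - K with hm
    obtain ⟨M, hM, hMm, hMc⟩ := exists_matching
      (univ.filter (fun x : Cell K => (x.1 ∈ Sc B p ∧ x.2 ∈ Tc B p) ∧ B x.1 x.2 ∧ x ∉ F))
      (Sc B p) (Tc B p) m (by omega) (by
        intro S hS T hT hST
        by_contra hcon
        push Not at hcon
        have hSK := card_le_K S
        have hTK := card_le_K T
        obtain ⟨T', hT', hT'c⟩ := exists_subset_card_eq (s := T) (n := K + 1 - S.card) (by omega)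
        have g1 := card_le_card hS
        have g2 := card_le_card (hT'.trans hT)
        have hW : ∀ s ∈ S, ∀ t ∈ T', B s t → (s, t) ∈ F := by
          intro s hs t ht hst
          by_contra hF'
          exact hcon (s, t) (mem_filter.2 ⟨mem_univ _, ⟨hS hs, hT (hT' ht)⟩, hst, hF'⟩) hs
            (hT' ht)
        by_cases hcase : k + 1 ≤ T'.card
        · have := count_aux hk ho hB S T' (by omega) hcase (by omega) F hW
          omega
        · have := count_aux hk ho hB.swap T' S (by omega) (by omega) (by omega)
            (F.image Prod.swap) (by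
              intro t ht s hs hst
              rw [mem_image]
              exact ⟨(s, t), hW s hs t ht hst, rfl⟩)
          have h3 := card_image_le (s := F) (f := Prod.swap)
          omega)
    refine ⟨M, hMm, by omega, fun x hx => (mem_filter.1 (hM hx)).2.2, ?_⟩
    intro S T h
    by_contra hcon
    push Not at hcon
    have c1 : M ⊆ (M.filter (fun x => x.1 ∈ Sc B p \ S)) ∪
        (M.filter (fun x => x.2 ∈ Tc B p \ T)) := by
      intro x hx
      have hxE := (mem_filter.1 (hM hx)).2.1
      simp only [mem_union, mem_filter, mem_sdiff]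
      have := hcon x hx
      tauto
    have c2 := (card_le_card c1).trans (card_union_le _ _)
    have c3 : (M.filter (fun x => x.1 ∈ Sc B p \ S)).card ≤ (Sc B p \ S).card := by
      refine card_le_card_of_injOn (fun x => x.1) ?_ ?_
      · intro x hx
        exact (mem_filter.1 hx).2
      · intro x hx y hy hxy
        exact hMm.1 x (mem_filter.1 hx).1 y (mem_filter.1 hy).1 hxy
    have c4 : (M.filter (fun x => x.2 ∈ Tc B p \ T)).card ≤ (Tc B p \ T).card := by
      refine card_le_card_of_injOn (fun x => x.2) ?_ ?_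
      · intro x hx
        exact (mem_filter.1 hx).2
      · intro x hx y hy hxy
        exact hMm.2 x (mem_filter.1 hx).1 y (mem_filter.1 hy).1 hxy
    have c5 := card_sdiff_add_card_eq_card h.sub_Sc
    have c6 := card_sdiff_add_card_eq_card h.sub_Tc
    have c7 := h.card
    omega
  · refine ⟨∅, isMat_empty, by simp, by simp, ?_⟩
    intro S T h
    exact absurd ⟨S, T, h⟩ hex

end

end Pool.Agent.H97.PackE
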